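import Pool.Agent.U186.AF.Det

/-!
The socle of the Milnor algebra of a nondegenerate form: existence and uniqueness of the value of
the associated form.
-/

set_option linter.unusedSectionVars false

namespace Pool.Agent.U186.AF

open MvPolynomial Matrix

section hom
variable {σ : Type*} {A : Type*} [CommRing A]

attribute [local instance] MvPolynomial.gradedAlgebra

theorem hcomp_mul (a b : MvPolynomial σ A) {i n : ℕ} (hb : b.IsHomogeneous i) (h : i ≤ n) :
    homogeneousComponent n (a * b) = homogeneousComponent (n - i) a * b := by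
  have h1 := DirectSum.coe_decompose_mul_of_right_mem_of_le
    (homogeneousSubmodule σ A) (a := a) (b := b) (i := i) (n := n)
    ((mem_homogeneousSubmodule i b).mpr hb) h
  have h2 : ∀ (p : MvPolynomial σ A) (j : ℕ),
      ((DirectSum.decompose (homogeneousSubmodule σ A) p j : homogeneousSubmodule σ A j) :
        MvPolynomial σ A) = homogeneousComponent j p := fun p j =>
    decomposition.decompose'_apply p j
  rw [h2, h2] at h1
  exact h1

theorem isHomogeneous_span {ι : Type*} (g : ι → MvPolynomial σ A) {e : ℕ}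
    (hg : ∀ j, (g j).IsHomogeneous e) :
    (Ideal.span (Set.range g)).IsHomogeneous (homogeneousSubmodule σ A) := by
  apply Ideal.homogeneous_span
  rintro _ ⟨j, rfl⟩
  exact ⟨e, hg j⟩

theorem hcomp_mem {ι : Type*} (g : ι → MvPolynomial σ A) {e : ℕ}
    (hg : ∀ j, (g j).IsHomogeneous e) {p : MvPolynomial σ A} (hp : p ∈ Ideal.span (Set.range g))
    (n : ℕ) : homogeneousComponent n p ∈ Ideal.span (Set.range g) :=
  homogeneousComponent_mem_of_mem (isHomogeneous_span g hg) hp n

theorem exists_hom_matrix [Fintype σ] (g : σ → MvPolynomial σ A) {e K : ℕ}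
    (hg : ∀ j, (g j).IsHomogeneous e) (hK : e ≤ K)
    (h : ∀ i, (X i ^ K : MvPolynomial σ A) ∈ Ideal.span (Set.range g)) :
    ∃ a : Matrix σ σ (MvPolynomial σ A), (∀ i j, (a i j).IsHomogeneous (K - e)) ∧
      ∀ i, ∑ j, a i j * g j = X i ^ K := by
  have h1 : ∀ i, ∃ c : σ → MvPolynomial σ A, ∑ j, c j * g j = X i ^ K := fun i =>
    (Ideal.mem_span_range_iff_exists_fun).mp (h i)
  choose c hc using h1
  refine ⟨fun i j => homogeneousComponent (K - e) (c i j),
    fun i j => homogeneousComponent_isHomogeneous _ _, fun i => ?_⟩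
  have h2 : homogeneousComponent K (X i ^ K : MvPolynomial σ A) = X i ^ K := by
    rw [homogeneousComponent_of_mem (isHomogeneous_X_pow i K), if_pos rfl]
  rw [← h2, ← hc i, map_sum]
  refine Finset.sum_congr rfl fun j _ => ?_
  exact (hcomp_mul (c i j) (g j) (hg j) hK).symm

end hom

section
variable {σ : Type*} [Fintype σ] [DecidableEq σ]

theorem exists_pow_mem {k : Type*} [Field k] [IsAlgClosed k] (g : σ → MvPolynomial σ k)
    (h : ∀ x : σ → k, (∀ j, eval x (g j) = 0) → x = 0) (B : ℕ) :
    ∃ K, B ≤ K ∧ ∀ i, (X i ^ K : MvPolynomial σ k) ∈ Ideal.span (Set.range g) := by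
  have h1 : ∀ i, ∃ m : ℕ, (X i ^ m : MvPolynomial σ k) ∈ Ideal.span (Set.range g) := by
    intro i
    have h2 : (X i : MvPolynomial σ k) ∈
        vanishingIdeal k (zeroLocus k (Ideal.span (Set.range g))) := by
      intro x hx
      have h3 : x = 0 := h x fun j => by
        have := hx (g j) (Ideal.subset_span ⟨j, rfl⟩)
        rwa [aeval_eq_eval] at this
      rw [h3]; simp
    rw [vanishingIdeal_zeroLocus_eq_radical] at h2
    exact h2
  choose m hm using h1
  refine ⟨B + ∑ i, m i, Nat.le_add_right _ _, fun i => ?_⟩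
  have h4 : m i ≤ B + ∑ i, m i :=
    (Finset.single_le_sum (fun _ _ => Nat.zero_le _) (Finset.mem_univ i)).trans
      (Nat.le_add_left _ _)
  rw [← Nat.sub_add_cancel h4, pow_add]
  exact Ideal.mul_mem_left _ _ (hm i)

variable {A : Type*} [CommRing A]

/-- Hessian determinant -/
noncomputable def hess (f : MvPolynomial σ A) : MvPolynomial σ A :=
  Matrix.det (Matrix.of fun i j => pderiv i (pderiv j f))

/-- exponent vector `K - 1` -/
noncomputable def top (K : σ → ℕ) : σ →₀ ℕ := Finsupp.equivFunOnFinite.symm fun i => K i - 1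

@[simp] theorem top_apply (K : σ → ℕ) (i : σ) : top K i = K i - 1 := rfl

/-- the residue functional attached to the matrix `a` -/
noncomputable def res (K : σ → ℕ) (a : Matrix σ σ (MvPolynomial σ A)) (P : MvPolynomial σ A) : A :=
  coeff (top K) (a.det * P)

theorem res_add (K : σ → ℕ) (a : Matrix σ σ (MvPolynomial σ A)) (P Q : MvPolynomial σ A) :
    res K a (P + Q) = res K a P + res K a Q := by
  unfold res; rw [mul_add, coeff_add]

theorem res_C_mul (K : σ → ℕ) (a : Matrix σ σ (MvPolynomial σ A)) (c : A) (P : MvPolynomial σ A) :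
    res K a (C c * P) = c * res K a P := by
  unfold res; rw [mul_left_comm, coeff_C_mul]

theorem res_sum {ι : Type*} (K : σ → ℕ) (a : Matrix σ σ (MvPolynomial σ A)) (s : Finset ι)
    (P : ι → MvPolynomial σ A) : res K a (∑ i ∈ s, P i) = ∑ i ∈ s, res K a (P i) := by
  unfold res; rw [Finset.mul_sum, coeff_sum]

/-- the residue functional kills the system -/
theorem res_mul (K : σ → ℕ) (hK : ∀ i, 0 < K i) (a : Matrix σ σ (MvPolynomial σ A))
    (g : σ → MvPolynomial σ A) (c : σ → A)
    (ha : ∀ i, ∑ j, a i j * g j = C (c i) * X i ^ K i) (j : σ) (P : MvPolynomial σ A) :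
    res K a (g j * P) = 0 := by
  unfold res
  have h1 : (a.adjugate * a).mulVec g j = ∑ i, a.adjugate j i * (C (c i) * X i ^ K i) := by
    rw [← Matrix.mulVec_mulVec]
    refine Finset.sum_congr rfl fun i _ => ?_
    rw [← ha i]; rfl
  rw [Matrix.adjugate_mul, Matrix.smul_mulVec, Matrix.one_mulVec] at h1
  have h2 : a.det * g j = ∑ i, a.adjugate j i * (C (c i) * X i ^ K i) := h1
  have h3 : a.det * (g j * P) = ∑ i, (P * a.adjugate j i * C (c i)) * X i ^ K i := by
    rw [← mul_assoc, h2, Finset.sum_mul]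
    refine Finset.sum_congr rfl fun i _ => ?_
    ring
  rw [h3, coeff_sum]
  refine Finset.sum_eq_zero fun i _ => coeff_mul_X_pow_eq_zero _ _ _ _ ?_
  have := hK i
  simp; omega

theorem res_mem (K : σ → ℕ) (hK : ∀ i, 0 < K i) (a : Matrix σ σ (MvPolynomial σ A))
    (g : σ → MvPolynomial σ A) (c : σ → A)
    (ha : ∀ i, ∑ j, a i j * g j = C (c i) * X i ^ K i) {P : MvPolynomial σ A}
    (hP : P ∈ Ideal.span (Set.range g)) : res K a P = 0 := by
  obtain ⟨b, rfl⟩ := (Ideal.mem_span_range_iff_exists_fun).mp hP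
  rw [res_sum]
  refine Finset.sum_eq_zero fun j _ => ?_
  rw [mul_comm]
  exact res_mul K hK a g c ha j _

/-- value of the residue functional on a determinant of a matrix expressing the system -/
theorem res_det (K : σ → ℕ) (hK : ∀ i, 0 < K i) (a H : Matrix σ σ (MvPolynomial σ A))
    (g : σ → MvPolynomial σ A) (c : σ → A) (t : A)
    (ha : ∀ i, ∑ j, a i j * g j = C (c i) * X i ^ K i)
    (hH : ∀ j, ∑ l, H j l * X l = C t * g j) : res K a H.det = ∏ i, t * c i := by
  unfold res
  rw [← Matrix.det_mul]
  have h1 : ∀ i, ∑ l, (a * H) i l * (X l - C (0 : A)) = C (t * c i) * X i ^ K i := by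
    intro i
    simp only [map_zero, sub_zero]
    calc ∑ l, (a * H) i l * X l = ∑ l, ∑ j, a i j * H j l * X l := by
          refine Finset.sum_congr rfl fun l _ => ?_
          rw [Matrix.mul_apply, Finset.sum_mul]
      _ = ∑ j, a i j * ∑ l, H j l * X l := by
          rw [Finset.sum_comm]
          refine Finset.sum_congr rfl fun j _ => ?_
          rw [Finset.mul_sum]
          refine Finset.sum_congr rfl fun l _ => ?_
          rw [mul_assoc]
      _ = ∑ j, C t * (a i j * g j) := by
          refine Finset.sum_congr rfl fun j _ => ?_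
          rw [hH j]; ring
      _ = C (t * c i) * X i ^ K i := by
          rw [← Finset.mul_sum, ha i, C_mul, mul_assoc]
  rw [coeff_det K (fun _ => 0) (fun i => zero_pow (hK i).ne') (fun i => t * c i) (a * H) h1
    (top K) (fun i => by have := hK i; simp; omega)]
  refine Finset.prod_congr rfl fun i _ => ?_
  simp

/-- Euler's formula for the rows of the Hessian matrix -/
theorem euler_hess (f : MvPolynomial σ A) {d : ℕ} (hf : f.IsHomogeneous d) (j : σ) :
    ∑ l, (Matrix.of fun i j => pderiv i (pderiv j f)).transpose j l * X l =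
      C ((d - 1 : ℕ) : A) * pderiv j f := by
  have h := (hf.pderiv (i := j)).sum_X_mul_pderiv
  rw [nsmul_eq_mul] at h
  rw [← map_natCast (C : A →+* MvPolynomial σ A)] at h
  rw [← h]
  refine Finset.sum_congr rfl fun l _ => ?_
  rw [Matrix.transpose_apply, Matrix.of_apply, mul_comm]

theorem res_hess (K : σ → ℕ) (hK : ∀ i, 0 < K i) (a : Matrix σ σ (MvPolynomial σ A))
    (f : MvPolynomial σ A) {d : ℕ} (hf : f.IsHomogeneous d) (c : σ → A)
    (ha : ∀ i, ∑ j, a i j * pderiv j f = C (c i) * X i ^ K i) :
    res K a (hess f) = ∏ i, ((d - 1 : ℕ) : A) * c i := by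
  unfold hess
  rw [← Matrix.det_transpose]
  exact res_det K hK a _ (fun j => pderiv j f) c _ ha (euler_hess f hf)

end

end Pool.Agent.U186.AF
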