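import Mathlib

/-!
Coefficients of determinants of matrices `C` with `C · (X - y) = (c_i X_i ^ K_i)`.
-/

set_option linter.unusedSectionVars false

namespace Pool.Agent.U186.AF

open MvPolynomial Matrix

section
variable {σ : Type*} [Fintype σ] [DecidableEq σ] {A : Type*} [CommRing A]

/-- coefficient of a product of univariate sums -/
theorem coeff_prod_univ (K : σ → ℕ) (b : σ → ℕ → A) (α : σ →₀ ℕ) (hα : ∀ i, α i < K i) :
    coeff α (∏ i, ∑ s ∈ Finset.range (K i), C (b i s) * X i ^ s) = ∏ i, b i (α i) := by
  classical
  rw [Finset.prod_univ_sum, coeff_sum]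
  have key : ∀ p : σ → ℕ, (∏ i, (C (b i (p i)) * X i ^ (p i) : MvPolynomial σ A)) =
      monomial (Finsupp.equivFunOnFinite.symm p) (∏ i, b i (p i)) := by
    intro p
    rw [Finset.prod_mul_distrib, ← map_prod, monomial_eq, Finsupp.prod_fintype _ _ (by simp)]
    rfl
  rw [Finset.sum_eq_single (fun i => α i)]
  · rw [key, coeff_monomial, if_pos]
    ext i; simp
  · intro p _ hp
    rw [key, coeff_monomial, if_neg]
    intro h
    apply hp
    rw [← h]
    funext i
    simp
  · intro h
    exact absurd (Fintype.mem_piFinset.mpr fun i => Finset.mem_range.mpr (hα i)) h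

/-- the geometric sum `(X_i ^ K - y ^ K) / (X_i - y)` -/
noncomputable def geo (K : ℕ) (y : A) (i : σ) : MvPolynomial σ A :=
  ∑ s ∈ Finset.range K, C (y ^ (K - 1 - s)) * X i ^ s

theorem geo_mul (K : ℕ) (y : A) (i : σ) :
    geo K y i * (X i - C y) = X i ^ K - C (y ^ K) := by
  have h := (Commute.all (X i : MvPolynomial σ A) (C y)).geom_sum₂_mul K
  rw [map_pow, ← h]
  congr 1
  unfold geo
  refine Finset.sum_congr rfl fun s _ => ?_
  rw [map_pow, mul_comm]

/-- multiplication by a power of a variable is detected by coefficients -/
theorem coeff_add_single_mul_X_pow (p : MvPolynomial σ A) (α : σ →₀ ℕ) (i : σ) (k : ℕ) :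
    coeff (α + Finsupp.single i k) (p * X i ^ k) = coeff α p := by
  rw [X_pow_eq_monomial, coeff_mul_monomial, mul_one]

theorem coeff_mul_X_pow_eq_zero (p : MvPolynomial σ A) (α : σ →₀ ℕ) (j : σ) (k : ℕ)
    (h : α j < k) : coeff α (p * X j ^ k) = 0 := by
  rw [X_pow_eq_monomial, coeff_mul_monomial', if_neg]
  intro h'
  have := h' j
  simp at this
  omega

theorem coeff_det (K : σ → ℕ) (y : σ → A) (hy : ∀ i, y i ^ K i = 0) (c : σ → A)
    (M : Matrix σ σ (MvPolynomial σ A))
    (hM : ∀ i, ∑ l, M i l * (X l - C (y l)) = C (c i) * X i ^ K i)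
    (α : σ →₀ ℕ) (hα : ∀ i, α i < K i) :
    coeff α M.det = ∏ i, c i * y i ^ (K i - 1 - α i) := by
  classical
  let D : Matrix σ σ (MvPolynomial σ A) := Matrix.diagonal fun i => C (c i) * geo (K i) (y i) i
  have hD : ∀ i, ∑ l, D i l * (X l - C (y l)) = C (c i) * X i ^ K i := by
    intro i
    rw [Finset.sum_eq_single i]
    · simp only [D, Matrix.diagonal_apply_eq]
      rw [mul_assoc, geo_mul, hy i, map_zero, sub_zero]
    · intro l _ hl
      simp only [D, Matrix.diagonal_apply_ne _ hl.symm, zero_mul]
    · intro h; exact absurd (Finset.mem_univ i) h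
  -- replacing rows
  have step : ∀ s : Finset σ, coeff α (Matrix.det fun i => if i ∈ s then D i else M i) =
      coeff α M.det := by
    intro s
    induction s using Finset.induction_on with
    | empty => simp
    | insert i s his ih =>
      rw [← ih]
      set N : Matrix σ σ (MvPolynomial σ A) := fun j => if j ∈ s then D j else M j with hN
      have h1 : (fun j => if j ∈ insert i s then D j else M j) = N.updateRow i (D i) := by
        funext j
        by_cases hj : j = i
        · subst hj; simp
        · rw [Matrix.updateRow_ne hj]; simp [hN, Finset.mem_insert, hj]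
      have h2 : N = N.updateRow i (M i) := by
        funext j
        by_cases hj : j = i
        · subst hj
          rw [Matrix.updateRow_self]
          simp [hN, his]
        · rw [Matrix.updateRow_ne hj]
      have h3 : D i = M i + (D i - M i) := by abel
      have h4 : (N.updateRow i (D i)).det = N.det + (N.updateRow i (D i - M i)).det := by
        conv_lhs => rw [h3]
        rw [Matrix.det_updateRow_add, ← h2]
      change coeff α (Matrix.det fun j => if j ∈ insert i s then D j else M j) = coeff α N.det
      rw [h1, h4, coeff_add]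
      set E := N.updateRow i (D i - M i) with hE
      have hEi : ∑ l, E i l * (X l - C (y l)) = 0 := by
        have : ∀ l, E i l = D i l - M i l := fun l => by simp [hE]
        simp only [this, sub_mul, Finset.sum_sub_distrib]
        rw [hD i, hM i, sub_self]
      have hEj : ∀ j, j ≠ i → ∑ l, E j l * (X l - C (y l)) = C (c j) * X j ^ K j := by
        intro j hj
        have : ∀ l, E j l = if j ∈ s then D j l else M j l := fun l => by
          have e1 : E j = N j := Matrix.updateRow_ne hj
          rw [e1]
          simp only [hN]; split <;> rfl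
        simp only [this]
        by_cases hjs : j ∈ s
        · simp only [hjs, if_true]; exact hD j
        · simp only [hjs, if_false]; exact hM j
      have h5 : E.det * (X i - C (y i)) =
          ∑ j ∈ Finset.univ.erase i, E.adjugate i j * (C (c j) * X j ^ K j) := by
        have h6 : (E.adjugate * E).mulVec (fun l => X l - C (y l)) i =
            ∑ j, E.adjugate i j * ∑ l, E j l * (X l - C (y l)) := by
          rw [← Matrix.mulVec_mulVec]
          rfl
        rw [Matrix.adjugate_mul] at h6
        rw [← Finset.add_sum_erase _ _ (Finset.mem_univ i), hEi, mul_zero, zero_add] at h6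
        rw [show ((E.det • (1 : Matrix σ σ (MvPolynomial σ A))).mulVec
            (fun l => X l - C (y l)) i) = E.det * (X i - C (y i)) by
          rw [Matrix.smul_mulVec, Matrix.one_mulVec]; rfl] at h6
        rw [h6]
        refine Finset.sum_congr rfl fun j hj => ?_
        rw [hEj j (Finset.ne_of_mem_erase hj)]
      have h7 : coeff α E.det = 0 := by
        rw [← coeff_add_single_mul_X_pow E.det α i (K i)]
        have h8 : E.det * X i ^ K i = ∑ j ∈ Finset.univ.erase i,
            (geo (K i) (y i) i * E.adjugate i j * C (c j)) * X j ^ K j := by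
          have : (X i ^ K i : MvPolynomial σ A) = geo (K i) (y i) i * (X i - C (y i)) := by
            rw [geo_mul, hy i, map_zero, sub_zero]
          rw [this, mul_left_comm, h5, Finset.mul_sum]
          refine Finset.sum_congr rfl fun j _ => ?_
          ring
        rw [h8, coeff_sum]
        refine Finset.sum_eq_zero fun j hj => coeff_mul_X_pow_eq_zero _ _ _ _ ?_
        have := hα j
        have hji : i ≠ j := (Finset.ne_of_mem_erase hj).symm
        simp [hji, this]
      rw [h7, add_zero]
  have hfin := step Finset.univ
  simp only [Finset.mem_univ, if_true] at hfin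
  rw [← hfin]
  change coeff α D.det = _
  rw [Matrix.det_diagonal]
  have h9 : ∀ i, C (c i) * geo (K i) (y i) i =
      ∑ s ∈ Finset.range (K i), (C (c i * y i ^ (K i - 1 - s)) * X i ^ s :
        MvPolynomial σ A) := by
    intro i
    unfold geo
    rw [Finset.mul_sum]
    refine Finset.sum_congr rfl fun s _ => ?_
    rw [C_mul, mul_assoc]
  simp only [h9]
  exact coeff_prod_univ K (fun i s => c i * y i ^ (K i - 1 - s)) α hα

end

end Pool.Agent.U186.AF
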