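import Pool.Agent.U186.AF.Glue

/-!
Existence of the discriminant: an irreducible polynomial whose zeros are the degenerate forms.
-/

set_option linter.unusedSectionVars false

namespace Pool.Agent.U186.AF

open MvPolynomial Matrix

section
variable {σ : Type*} [Fintype σ] [DecidableEq σ] {k : Type*} [Field k] [IsAlgClosed k]
  [CharZero k] {d : ℕ}

/-- vanishing on the forms with a singular point outside `X_i = 0` -/
def VanOn (i : σ) (Δ : MvPolynomial (Mon σ d) k) : Prop :=
  ∀ (v : Mon σ d → k) (z : σ → k), z i ≠ 0 → (∀ l, eval z (sysE i (form v) l) = 0) →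
    eval v Δ = 0

theorem ev_mem_span (i : σ) (v : Mon σ d → k) (z : σ → k)
    (hvz : ∀ l, eval z (sysE i (form v) l) = 0) (p : MvPolynomial σ (MvPolynomial (Mon σ d) k))
    (hp : p ∈ Ideal.span (Set.range (sysE i (form (gen σ k d))))) : ev v z p = 0 := by
  obtain ⟨b, rfl⟩ := (Ideal.mem_span_range_iff_exists_fun).mp hp
  rw [map_sum]
  refine Finset.sum_eq_zero fun l _ => ?_
  rw [map_mul]
  have h4 : ev v z (sysE i (form (gen σ k d)) l) = eval z (sysE i (form v) l) := by
    have h5 : (fun m => eval v (gen σ k d m)) = v := by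
      funext m; simp [gen]
    by_cases hl : l = i
    · rw [sysE, sysE, if_pos hl, if_pos hl, ev_form, h5]
    · rw [sysE, sysE, if_neg hl, if_neg hl, ev_pderiv, map_form, h5]
  rw [h4, hvz l, mul_zero]

theorem vanOn_of_mem (i : σ) (Δ : MvPolynomial (Mon σ d) k) (N : ℕ)
    (h : X i ^ N * C Δ ∈ Ideal.span (Set.range (sysE i (form (gen σ k d))))) : VanOn i Δ := by
  intro v z hz hs
  have h1 := ev_mem_span i v z hs _ h
  rw [map_mul, map_pow, ev_X, ev_C] at h1
  exact (mul_eq_zero.mp h1).resolve_left (pow_ne_zero _ hz)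

theorem vanOn_all (hd : 1 ≤ d) {i : σ} {Δ : MvPolynomial (Mon σ d) k} (h : VanOn i Δ) (j : σ) :
    VanOn j Δ := by
  obtain ⟨N, a', h1, h2⟩ := red_all hd j (C Δ : MvPolynomial σ (MvPolynomial (Mon σ d) k))
  have h6 : X i * X j * a' = 0 := by
    apply eq_zero_of_ev
    intro v z
    rw [map_mul, map_mul, ev_X, ev_X]
    by_cases hj : z j = 0
    · rw [hj, mul_zero, zero_mul]
    by_cases hi : z i = 0
    · rw [hi, zero_mul, zero_mul]
    obtain ⟨v', hv, hs⟩ := exists_singular hd j v z hj
    rw [h1 v v' z hv]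
    have h7 := ev_mem_span j v' z hs _ h2
    have hs' : ∀ l, eval z (pderiv l (form v')) = 0 := by
      have h8 : ∀ l, l ≠ j → eval z (pderiv l (form v')) = 0 := by
        intro l hl
        have := hs l
        rwa [sysE, if_neg hl] at this
      intro l
      by_cases hl : l = j
      · subst hl
        have h9 : eval z (form v') = 0 := by
          have := hs l
          rwa [sysE, if_pos rfl] at this
        have h3 := congrArg (eval z) ((form_hom v').sum_X_mul_pderiv)
        rw [map_sum, nsmul_eq_mul, map_mul, h9, mul_zero,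
          ← Finset.add_sum_erase _ _ (Finset.mem_univ l), Finset.sum_eq_zero, add_zero, map_mul,
          eval_X] at h3
        · exact (mul_eq_zero.mp h3).resolve_left hj
        · intro l' hl'
          rw [map_mul, h8 l' (Finset.ne_of_mem_erase hl'), mul_zero]
      · exact h8 l hl
    have hsi : ∀ l, eval z (sysE i (form v') l) = 0 := by
      intro l
      by_cases hl : l = i
      · rw [sysE, if_pos hl]
        have := hs j
        rwa [sysE, if_pos rfl] at this
      · rw [sysE, if_neg hl]
        exact hs' l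
    rw [map_sub, map_mul, ev_C, h v' z hi hsi, mul_zero, zero_sub, neg_eq_zero] at h7
    rw [h7, mul_zero]
  have h8 : a' = 0 := (mul_eq_zero.mp h6).resolve_left
    (mul_ne_zero (X_ne_zero i) (X_ne_zero j))
  rw [h8, sub_zero] at h2
  exact vanOn_of_mem j Δ N h2

theorem vanOn_prime (hd : 1 ≤ d) {i : σ} {Δ Δ' : MvPolynomial (Mon σ d) k}
    (h : VanOn i (Δ * Δ')) : VanOn i Δ ∨ VanOn i Δ' := by
  obtain ⟨N, a, h1, h2⟩ := red_all hd i (C Δ : MvPolynomial σ (MvPolynomial (Mon σ d) k))
  obtain ⟨M, b, h3, h4⟩ := red_all hd i (C Δ' : MvPolynomial σ (MvPolynomial (Mon σ d) k))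
  have h6 : X i * (a * b) = 0 := by
    apply eq_zero_of_ev
    intro v z
    rw [map_mul, ev_X]
    by_cases hi : z i = 0
    · rw [hi, zero_mul]
    obtain ⟨v', hv, hs⟩ := exists_singular hd i v z hi
    rw [(h1.mul h3) v v' z hv]
    have h7 := ev_mem_span i v' z hs _ h2
    have h8 := ev_mem_span i v' z hs _ h4
    rw [map_sub, map_mul, ev_C, sub_eq_zero] at h7 h8
    have h9 := h v' z hi hs
    rw [map_mul] at h9
    rw [map_mul, ← h7, ← h8]
    linear_combination (z i * ev v' z (X i ^ N) * ev v' z (X i ^ M)) * h9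
  rcases mul_eq_zero.mp ((mul_eq_zero.mp h6).resolve_left (X_ne_zero i)) with h7 | h7
  · left
    rw [h7, sub_zero] at h2
    exact vanOn_of_mem i Δ N h2
  · right
    rw [h7, sub_zero] at h4
    exact vanOn_of_mem i Δ' M h4

/-- the ideal of polynomials vanishing on the degenerate forms -/
noncomputable def degIdeal (σ : Type*) [Fintype σ] [DecidableEq σ] (k : Type*) [Field k]
    [IsAlgClosed k] (d : ℕ) : Ideal (MvPolynomial (Mon σ d) k) where
  carrier := {Δ | ∀ v, ¬ Nondeg (form v) → eval v Δ = 0}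
  add_mem' := fun {a b} ha hb v hv => by rw [map_add, ha v hv, hb v hv, add_zero]
  zero_mem' := fun v _ => map_zero _
  smul_mem' := fun c a ha v hv => by rw [smul_eq_mul, map_mul, ha v hv, mul_zero]

theorem mem_degIdeal {Δ : MvPolynomial (Mon σ d) k} :
    Δ ∈ degIdeal σ k d ↔ ∀ v, ¬ Nondeg (form v) → eval v Δ = 0 := Iff.rfl

theorem mem_degIdeal_iff (hd : 1 ≤ d) (i : σ) {Δ : MvPolynomial (Mon σ d) k} :
    Δ ∈ degIdeal σ k d ↔ VanOn i Δ := by
  constructor
  · intro h v z hz hs
    exact h v (degenerate_of_sysE i v z hz hs)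
  · intro h v hv
    unfold Nondeg at hv
    push Not at hv
    obtain ⟨z, hz, hz0⟩ := hv
    obtain ⟨j, hj⟩ := Function.ne_iff.mp hz0
    refine vanOn_all hd h j v z hj fun l => ?_
    by_cases hl : l = j
    · rw [sysE, if_pos hl]
      have h3 := congrArg (eval z) ((form_hom v).sum_X_mul_pderiv)
      rw [map_sum, nsmul_eq_mul, map_mul, Finset.sum_eq_zero fun l _ => by
        rw [map_mul, hz l, mul_zero], map_natCast] at h3
      exact (mul_eq_zero.mp h3.symm).resolve_left (Nat.cast_ne_zero.mpr (by omega))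
    · rw [sysE, if_neg hl]
      exact hz l

theorem degenerate_zero [Nonempty σ] : ¬ Nondeg (form (0 : Mon σ d → k)) := by
  intro h
  have h0 : form (0 : Mon σ d → k) = 0 := by
    unfold form
    refine Finset.sum_eq_zero fun m _ => ?_
    rw [Pi.zero_apply, monomial_zero]
  have h1 := h (fun _ => 1) fun j => by rw [h0, map_zero, map_zero]
  exact one_ne_zero (congrFun h1 (Classical.arbitrary σ))

theorem degIdeal_prime (hd : 1 ≤ d) [Nonempty σ] : (degIdeal σ k d).IsPrime := by
  constructor
  · intro h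
    have h1 : (1 : MvPolynomial (Mon σ d) k) ∈ degIdeal σ k d := by rw [h]; trivial
    have h2 := h1 0 degenerate_zero
    rw [map_one] at h2
    exact one_ne_zero h2
  · intro a b hab
    let i : σ := Classical.arbitrary σ
    rw [mem_degIdeal_iff hd i] at hab ⊢
    rw [mem_degIdeal_iff hd i]
    exact vanOn_prime hd hab

theorem exists_hom_vec (g : σ → MvPolynomial σ k) {e K : ℕ}
    (hg : ∀ j, (g j).IsHomogeneous e) (hK : e ≤ K) (P : MvPolynomial σ k) (hP : P.IsHomogeneous K)
    (h : P ∈ Ideal.span (Set.range g)) :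
    ∃ a : σ → MvPolynomial σ k, (∀ j, (a j).IsHomogeneous (K - e)) ∧ ∑ j, a j * g j = P := by
  obtain ⟨c, hc⟩ := (Ideal.mem_span_range_iff_exists_fun).mp h
  refine ⟨fun j => homogeneousComponent (K - e) (c j),
    fun j => homogeneousComponent_isHomogeneous _ _, ?_⟩
  have h2 : homogeneousComponent K P = P := by
    rw [homogeneousComponent_of_mem hP, if_pos rfl]
  rw [← h2, ← hc, map_sum]
  refine Finset.sum_congr rfl fun j _ => ?_
  exact (hcomp_mul (c j) (g j) (hg j) hK).symm

/-- Elimination theory: the degenerate forms are closed. -/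
theorem exists_ne_zero (hd : 2 ≤ d) [Nonempty σ] (v : Mon σ d → k) (hv : Nondeg (form v)) :
    ∃ Δ ∈ degIdeal σ k d, eval v Δ ≠ 0 := by
  classical
  obtain ⟨K, hK, h1⟩ := exists_pow_mem (fun j => pderiv j (form v)) hv d
  set K' := Fintype.card σ * K with hK'
  have hcard : 0 < Fintype.card σ := Fintype.card_pos
  have hle : d - 1 ≤ K' := by
    have : K ≤ K' := Nat.le_mul_of_pos_left K hcard
    omega
  have hmem : ∀ α : Mon σ K', (monomial α.1 1 : MvPolynomial σ k) ∈
      Ideal.span (Set.range fun j => pderiv j (form v)) := by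
    intro α
    have : ∃ i, K ≤ α.1 i := by
      by_contra hcon
      push Not at hcon
      have h2 : α.1.degree ≤ Fintype.card σ * (K - 1) := by
        rw [Finsupp.degree_eq_sum]
        calc ∑ l, α.1 l ≤ ∑ _l : σ, (K - 1) :=
              Finset.sum_le_sum fun l _ => by have := hcon l; omega
          _ = _ := by rw [Finset.sum_const, smul_eq_mul, Finset.card_univ]
      rw [α.2, hK'] at h2
      have := Nat.le_of_mul_le_mul_left h2 hcard
      omega
    obtain ⟨i, hi⟩ := this
    have h3 : (monomial α.1 1 : MvPolynomial σ k) =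
        monomial (α.1 - Finsupp.single i K) 1 * X i ^ K := by
      rw [X_pow_eq_monomial, monomial_mul, one_mul, tsub_add_cancel_of_le]
      intro j
      by_cases hj : i = j
      · subst hj; simpa using hi
      · rw [Finsupp.single_apply, if_neg hj]; exact Nat.zero_le _
    rw [h3]
    exact Ideal.mul_mem_left _ _ (h1 i)
  choose b hb1 hb2 using fun α : Mon σ K' => exists_hom_vec (fun j => pderiv j (form v))
    (fun j => (form_hom v).pderiv) hle (monomial α.1 1) (isHomogeneous_monomial _ α.2) (hmem α)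
  let W : Matrix (Mon σ K') (Mon σ K') (MvPolynomial (Mon σ d) k) := Matrix.of fun α α' =>
    coeff α'.1 (∑ j, MvPolynomial.map C (b α j) * pderiv j (form (gen σ k d)))
  have hW : ∀ (u : Mon σ d → k) (α α' : Mon σ K'), eval u (W α α') =
      coeff α'.1 (∑ j, b α j * pderiv j (form u)) := by
    intro u α α'
    simp only [W, Matrix.of_apply]
    rw [← coeff_map, map_sum]
    congr 1
    refine Finset.sum_congr rfl fun j _ => ?_
    rw [map_mul, map_eval_map_C, map_pderiv, map_eval_gen]
  have hdet : ∀ u : Mon σ d → k, eval u W.det =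
      (Matrix.of fun α α' : Mon σ K' => eval u (W α α')).det := by
    intro u
    rw [RingHom.map_det]
    rfl
  refine ⟨W.det, ?_, ?_⟩
  · intro u hu
    unfold Nondeg at hu
    push Not at hu
    obtain ⟨z, hz, hz0⟩ := hu
    rw [hdet u]
    rw [← Matrix.exists_mulVec_eq_zero_iff]
    obtain ⟨i, hi⟩ := Function.ne_iff.mp hz0
    refine ⟨fun α' => ∏ j, z j ^ (α'.1 j), ?_, ?_⟩
    · intro h
      have h5 := congrFun h ⟨Finsupp.single i K', Finsupp.degree_single _ _⟩
      simp only [Pi.zero_apply] at h5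
      rw [Finset.prod_eq_single i] at h5
      · rw [Finsupp.single_eq_same] at h5
        exact pow_ne_zero _ hi h5
      · intro j _ hj
        rw [Finsupp.single_apply, if_neg (Ne.symm hj), pow_zero]
      · intro h; exact absurd (Finset.mem_univ _) h
    · funext α
      change ∑ α' : Mon σ K', eval u (W α α') * ∏ j, z j ^ (α'.1 j) = 0
      have h6 : (∑ j, b α j * pderiv j (form u)).IsHomogeneous K' := by
        apply IsHomogeneous.sum
        intro j _
        have := (hb1 α j).mul ((form_hom u).pderiv (i := j))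
        rwa [Nat.sub_add_cancel hle] at this
      have h7 : eval z (∑ j, b α j * pderiv j (form u)) = 0 := by
        rw [map_sum]
        refine Finset.sum_eq_zero fun j _ => ?_
        rw [map_mul, hz j, mul_zero]
      rw [eq_form h6] at h7
      unfold form at h7
      rw [map_sum] at h7
      rw [← h7]
      refine Finset.sum_congr rfl fun α' _ => ?_
      rw [eval_monomial, hW u α α', Finsupp.prod_fintype _ _ (fun _ => pow_zero _)]
      rfl
  · rw [hdet v]
    have h8 : (Matrix.of fun α α' : Mon σ K' => eval v (W α α')) = 1 := by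
      ext1 α α'
      rw [Matrix.of_apply, hW v, hb2 α, coeff_monomial]
      by_cases h : α = α'
      · rw [h, if_pos rfl, Matrix.one_apply_eq]
      · rw [if_neg fun h' => h (Subtype.ext h'), Matrix.one_apply_ne h]
    rw [h8, Matrix.det_one]
    exact one_ne_zero

theorem nondeg_fermat (hd : 2 ≤ d) : Nondeg (form (fermat σ k d)) := by
  intro x hx
  funext j
  have h1 := hx j
  rw [pderiv_fermat, map_mul, map_pow, eval_X, eval_C] at h1
  have h2 : (d : k) ≠ 0 := Nat.cast_ne_zero.mpr (by omega)
  exact pow_eq_zero_iff (by omega : d - 1 ≠ 0) |>.mp ((mul_eq_zero.mp h1).resolve_left h2)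

/-- values of the functional on monomials at nondegenerate forms -/
theorem eval_Psi (Δ : MvPolynomial (Mon σ d) k)
    (Ψ : Mon σ (Fintype.card σ * (d - 2)) → MvPolynomial (Mon σ d) k)
    (h1 : ∀ l P, lin Ψ (pderiv l (form (gen σ k d)) * P) = 0)
    (h2 : lin Ψ (hess (form (gen σ k d))) = Δ) (v : Mon σ d → k)
    (α : Mon σ (Fintype.card σ * (d - 2))) (c : k)
    (hP : monomial α.1 1 - C c * hess (form v) ∈ jac (form v)) : eval v (Ψ α) = c * eval v Δ := by
  classical
  have h3 := lin_spec Δ Ψ h1 h2 v (monomial α.1 1) c hP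
  rw [← h3]
  unfold lin
  rw [Finset.sum_eq_single α]
  · rw [coeff_monomial, if_pos rfl, one_mul]
  · intro β _ hβ
    rw [coeff_monomial, if_neg fun h => hβ (Subtype.ext h.symm), zero_mul]
  · intro h; exact absurd (Finset.mem_univ _) h

/-- Existence of the discriminant. -/
theorem exists_disc (hd : 2 ≤ d) [Nonempty σ] : ∃ Δ : MvPolynomial (Mon σ d) k,
    Irreducible Δ ∧ ∀ v, eval v Δ = 0 ↔ ¬ Nondeg (form v) := by
  classical
  have hd1 : ((d - 1 : ℕ) : k) ≠ 0 := Nat.cast_ne_zero.mpr (by omega)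
  have hp := degIdeal_prime (σ := σ) (k := k) (d := d) (by omega)
  have hne : degIdeal σ k d ≠ ⊥ := by
    obtain ⟨Δ, hΔ, h0⟩ := exists_ne_zero hd _ (nondeg_fermat (σ := σ) (k := k) hd)
    intro h
    rw [h, Ideal.mem_bot] at hΔ
    rw [hΔ, map_zero] at h0
    exact h0 rfl
  obtain ⟨Δ₁, hmem, hprime⟩ := hp.exists_mem_prime_of_ne_bot hne
  refine ⟨Δ₁, hprime.irreducible, fun v => ⟨fun h0 hv => ?_, fun hv => hmem v hv⟩⟩
  obtain ⟨Δ, hΔ, hΔv⟩ := exists_ne_zero hd v hv
  have hΔ0 : Δ ≠ 0 := by rintro rfl; exact hΔv (map_zero _)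
  obtain ⟨Ψ, hk, hh⟩ := exists_lin hd Δ hΔ0 hΔ
  obtain ⟨Ψ₁, hk₁, hh₁⟩ := exists_lin hd Δ₁ hprime.ne_zero hmem
  have hrel : ∀ α, Δ₁ * Ψ α = Δ * Ψ₁ α := by
    intro α
    apply MvPolynomial.funext
    intro u
    rw [map_mul, map_mul]
    by_cases hu : Nondeg (form u)
    · obtain ⟨c, hc⟩ := exists_socle (form u) hd hd1 (form_hom u) hu (monomial α.1 1)
        (isHomogeneous_monomial _ α.2)
      rw [eval_Psi Δ Ψ hk hh u α c hc, eval_Psi Δ₁ Ψ₁ hk₁ hh₁ u α c hc]
      ring
    · rw [hmem u hu, hΔ u hu, zero_mul, zero_mul]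
  by_cases hdvd : Δ₁ ∣ Δ
  · obtain ⟨q, hq⟩ := hdvd
    apply hΔv
    rw [hq, map_mul, h0, zero_mul]
  · have h1 : ∀ α, ∃ θ, Ψ₁ α = Δ₁ * θ := by
      intro α
      have h2 : Δ₁ ∣ Δ * Ψ₁ α := ⟨Ψ α, (hrel α).symm⟩
      exact (hprime.dvd_or_dvd h2).resolve_left hdvd
    choose θ hθ using h1
    have h3 : Δ₁ * lin θ (hess (form (gen σ k d))) = Δ₁ * 1 := by
      rw [mul_one, ← lin_smul]
      conv_rhs => rw [← hh₁]
      congr 1
      funext α
      exact (hθ α).symm
    have h4 := mul_left_cancel₀ hprime.ne_zero h3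
    have h5 := congrArg (eval (0 : Mon σ d → k)) h4
    rw [← lin_map, map_hess, map_eval_gen, map_one] at h5
    have h6 : hess (form (0 : Mon σ d → k)) = 0 := by
      have h7 : form (0 : Mon σ d → k) = 0 := by
        unfold form
        refine Finset.sum_eq_zero fun m _ => ?_
        rw [Pi.zero_apply, monomial_zero]
      unfold hess
      rw [h7]
      apply Matrix.det_eq_zero_of_row_eq_zero (Classical.arbitrary σ)
      intro j
      rw [Matrix.of_apply, map_zero, map_zero]
    rw [h6] at h5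
    unfold lin at h5
    simp at h5

end

end Pool.Agent.U186.AF
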