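import Pool.Agent.U186.AF.Assoc

/-!
Duality for the residue functional, and the value of the associated form.
-/

set_option linter.unusedSectionVars false

namespace Pool.Agent.U186.AF

open MvPolynomial Matrix

section
variable {σ : Type*} [Fintype σ] [DecidableEq σ] {A : Type*} [CommRing A]

theorem sub_eval_mem (y : σ → A) (p : MvPolynomial σ A) :
    p - C (eval y p) ∈ Ideal.span (Set.range fun l => (X l - C (y l) : MvPolynomial σ A)) := by
  induction p using MvPolynomial.induction_on with
  | C a => simp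
  | add p q hp hq =>
    have : p + q - C (eval y (p + q)) = (p - C (eval y p)) + (q - C (eval y q)) := by
      rw [map_add, C_add]; ring
    rw [this]
    exact Ideal.add_mem _ hp hq
  | mul_X p i hp =>
    have : p * X i - C (eval y (p * X i)) =
        X i * (p - C (eval y p)) + C (eval y p) * (X i - C (y i)) := by
      rw [map_mul, eval_X, C_mul]; ring
    rw [this]
    exact Ideal.add_mem _ (Ideal.mul_mem_left _ _ hp)
      (Ideal.mul_mem_left _ _ (Ideal.subset_span ⟨i, rfl⟩))

theorem degree_top (K : σ → ℕ) : (top K).degree = ∑ i, (K i - 1) := by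
  rw [Finsupp.degree_eq_sum]
  rfl

/-- The duality identity. -/
theorem dual (K : ℕ) (hK : 0 < K) (g : σ → MvPolynomial σ A)
    (a : Matrix σ σ (MvPolynomial σ A)) (ha : ∀ i, ∑ j, a i j * g j = X i ^ K) :
    ∃ Mo : MvPolynomial σ (MvPolynomial σ A ⧸ Ideal.span (Set.range g)), ∀ P : MvPolynomial σ A,
      Ideal.Quotient.mk (Ideal.span (Set.range g)) P =
        coeff (top fun _ => K) (MvPolynomial.map (algebraMap A (MvPolynomial σ A ⧸ Ideal.span (Set.range g)))
          (P * a.det) * Mo) := by
  classical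
  set J := Ideal.span (Set.range g) with hJ
  set B := MvPolynomial σ A ⧸ J
  let y : σ → B := fun i => Ideal.Quotient.mk J (X i)
  let φ : MvPolynomial σ A →+* MvPolynomial σ B := MvPolynomial.map (algebraMap A B)
  have hy : ∀ i, y i ^ K = 0 := by
    intro i
    change (Ideal.Quotient.mk J (X i)) ^ K = 0
    rw [← map_pow, Ideal.Quotient.eq_zero_iff_mem, ← ha i]
    exact Ideal.sum_mem _ fun j _ => Ideal.mul_mem_left _ _ (Ideal.subset_span ⟨j, rfl⟩)
  have hev : ∀ P : MvPolynomial σ A, eval y (φ P) = Ideal.Quotient.mk J P := by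
    intro P
    rw [eval_map]
    have h1 : (eval₂Hom (algebraMap A B) y) = Ideal.Quotient.mk J := by
      apply MvPolynomial.ringHom_ext
      · intro r
        simp only [eval₂Hom_C]
        rfl
      · intro i
        simp only [eval₂Hom_X']
        rfl
    exact congrArg (fun F : MvPolynomial σ A →+* B => F P) h1
  have hg : ∀ j, ∃ h : σ → MvPolynomial σ B, ∑ l, h l * (X l - C (y l)) = φ (g j) := by
    intro j
    have h1 := sub_eval_mem y (φ (g j))
    rw [hev, (Ideal.Quotient.eq_zero_iff_mem).mpr (show g j ∈ J from Ideal.subset_span ⟨j, rfl⟩),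
      map_zero, sub_zero] at h1
    exact (Ideal.mem_span_range_iff_exists_fun).mp h1
  choose h hh using hg
  let H : Matrix σ σ (MvPolynomial σ B) := Matrix.of h
  let a' : Matrix σ σ (MvPolynomial σ B) := a.map φ
  have hC : ∀ i, ∑ l, (a' * H) i l * (X l - C (y l)) = C (1 : B) * X i ^ K := by
    intro i
    calc ∑ l, (a' * H) i l * (X l - C (y l))
        = ∑ l, ∑ j, a' i j * H j l * (X l - C (y l)) := by
          refine Finset.sum_congr rfl fun l _ => ?_
          rw [Matrix.mul_apply, Finset.sum_mul]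
      _ = ∑ j, a' i j * ∑ l, H j l * (X l - C (y l)) := by
          rw [Finset.sum_comm]
          refine Finset.sum_congr rfl fun j _ => ?_
          rw [Finset.mul_sum]
          refine Finset.sum_congr rfl fun l _ => ?_
          rw [mul_assoc]
      _ = ∑ j, φ (a i j * g j) := by
          refine Finset.sum_congr rfl fun j _ => ?_
          change φ (a i j) * ∑ l, h j l * (X l - C (y l)) = _
          rw [hh j, map_mul]
      _ = C (1 : B) * X i ^ K := by
          rw [← map_sum, ha i, map_pow, map_one, one_mul]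
          change (MvPolynomial.map (algebraMap A B) (X i)) ^ K = _
          rw [map_X]
  refine ⟨H.det, fun P => ?_⟩
  change Ideal.Quotient.mk J P = coeff (top fun _ => K) (φ (P * a.det) * H.det)
  have hdet : φ a.det = a'.det := by
    rw [Matrix.det_apply, Matrix.det_apply, map_sum]
    refine Finset.sum_congr rfl fun τ _ => ?_
    rw [Units.smul_def, Units.smul_def, map_zsmul, map_prod]
    rfl
  rw [map_mul, mul_assoc, hdet, ← Matrix.det_mul, coeff_mul]
  have h2 := fun α hα => coeff_det (fun _ => K) y hy (fun _ => 1) (a' * H) hC α hα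
  rw [← hev P, eval_eq']
  -- both sides as sums over exponents below `K`
  have hsupp : (φ P).support ⊆ P.support := support_map_subset _ _
  have h3 : ∀ x ∈ Finset.HasAntidiagonal.antidiagonal (top fun _ : σ => K),
      coeff x.1 (φ P) * coeff x.2 (a' * H).det =
      coeff x.1 (φ P) * ∏ i, y i ^ (x.1 i) := by
    intro x hx
    rw [Finset.HasAntidiagonal.mem_antidiagonal] at hx
    have h4 : ∀ i, x.1 i + x.2 i = K - 1 := fun i => by
      have := congrArg (fun z : σ →₀ ℕ => z i) hx
      simpa using this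
    rw [h2 x.2 (fun i => by have := h4 i; omega)]
    congr 1
    refine Finset.prod_congr rfl fun i _ => ?_
    rw [one_mul]
    congr 1
    have := h4 i
    omega
  rw [Finset.sum_congr rfl h3]
  have h5 : ∀ α : σ →₀ ℕ, ¬ α ≤ (top fun _ => K) → ∏ i, y i ^ (α i) = 0 := by
    intro α hα
    have : ∃ i, K ≤ α i := by
      by_contra hcon
      push Not at hcon
      apply hα
      intro i
      have := hcon i
      simp; omega
    obtain ⟨i, hi⟩ := this
    apply Finset.prod_eq_zero (Finset.mem_univ i)
    rw [← Nat.sub_add_cancel hi, pow_add, hy i, mul_zero]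
  have h6 : ∑ x ∈ Finset.HasAntidiagonal.antidiagonal (top fun _ : σ => K),
      coeff x.1 (φ P) * ∏ i, y i ^ (x.1 i) =
      ∑ α ∈ Finset.Iic (top fun _ : σ => K), coeff α (φ P) * ∏ i, y i ^ (α i) := by
    apply Finset.sum_nbij' (fun x => x.1) (fun α => (α, (top fun _ => K) - α))
    · intro x hx
      rw [Finset.HasAntidiagonal.mem_antidiagonal] at hx
      rw [Finset.mem_Iic, ← hx]
      exact le_self_add
    · intro α hα
      rw [Finset.mem_Iic] at hα
      rw [Finset.HasAntidiagonal.mem_antidiagonal]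
      exact add_tsub_cancel_of_le hα
    · intro x hx
      rw [Finset.HasAntidiagonal.mem_antidiagonal] at hx
      ext1
      · rfl
      · simp only
        rw [← hx, add_tsub_cancel_left]
    · intro α _; rfl
    · intro x _; rfl
  rw [h6]
  have h7 : ∑ α ∈ (φ P).support, coeff α (φ P) * ∏ i, y i ^ (α i) =
      ∑ α ∈ (φ P).support ∪ Finset.Iic (top fun _ : σ => K), coeff α (φ P) * ∏ i, y i ^ (α i) := by
    apply Finset.sum_subset Finset.subset_union_left
    intro α _ hα
    rw [notMem_support_iff.mp hα, zero_mul]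
  have h8 : ∑ α ∈ Finset.Iic (top fun _ : σ => K), coeff α (φ P) * ∏ i, y i ^ (α i) =
      ∑ α ∈ (φ P).support ∪ Finset.Iic (top fun _ : σ => K), coeff α (φ P) * ∏ i, y i ^ (α i) := by
    apply Finset.sum_subset Finset.subset_union_right
    intro α _ hα
    rw [Finset.mem_Iic] at hα
    rw [h5 α hα, mul_zero]
  rw [h7, h8]

/-- In the critical degree only the constant term of `Mo` matters. -/
theorem coeff_top_mul_hom {B : Type*} [CommRing B] (φ : A →+* B) (K : σ → ℕ)
    (Q : MvPolynomial σ A) (hQ : Q.IsHomogeneous (∑ i, (K i - 1))) (Mo : MvPolynomial σ B) :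
    coeff (top K) (MvPolynomial.map φ Q * Mo) = φ (coeff (top K) Q) * coeff 0 Mo := by
  classical
  rw [coeff_mul, Finset.sum_eq_single (top K, 0)]
  · rw [coeff_map]
  · rintro ⟨α, β⟩ hx hne
    rw [Finset.HasAntidiagonal.mem_antidiagonal] at hx
    simp only at hx
    simp only [coeff_map]
    by_cases h0 : coeff α Q = 0
    · rw [h0, map_zero, zero_mul]
    · exfalso
      apply hne
      have h1 : α.degree = ∑ i, (K i - 1) := by
        rw [Finsupp.degree_eq_weight_one]
        exact hQ h0
      have h2 : α.degree + β.degree = (top K).degree := by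
        rw [← hx, map_add]
      rw [degree_top, h1] at h2
      have h3 : β.degree = 0 := by omega
      rw [Finsupp.degree_eq_zero_iff] at h3
      rw [h3, add_zero] at hx
      rw [hx, h3]
  · intro h
    exact absurd (Finset.HasAntidiagonal.mem_antidiagonal.mpr (add_zero _)) h

end

section
variable {σ : Type*} [Fintype σ] [DecidableEq σ] {k : Type*} [Field k] [IsAlgClosed k]

/-- A nondegenerate form: no nontrivial common zero of the partial derivatives. -/
def Nondeg (f : MvPolynomial σ k) : Prop := ∀ x : σ → k, (∀ j, eval x (pderiv j f) = 0) → x = 0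

/-- Jacobian ideal -/
noncomputable def jac (f : MvPolynomial σ k) : Ideal (MvPolynomial σ k) :=
  Ideal.span (Set.range fun j => pderiv j f)

/-- data of a nondegenerate form -/
theorem exists_data (f : MvPolynomial σ k) {d : ℕ} (hd : 2 ≤ d) (hf : f.IsHomogeneous d)
    (h0 : Nondeg f) : ∃ (K : ℕ) (a : Matrix σ σ (MvPolynomial σ k)), d ≤ K ∧
      (∀ i j, (a i j).IsHomogeneous (K - (d - 1))) ∧ ∀ i, ∑ j, a i j * pderiv j f = X i ^ K := by
  obtain ⟨K, hK, h1⟩ := exists_pow_mem (fun j => pderiv j f) h0 d
  obtain ⟨a, ha, h2⟩ := exists_hom_matrix (fun j => pderiv j f) (e := d - 1) (K := K)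
    (fun j => hf.pderiv) (by omega) h1
  exact ⟨K, a, hK, ha, h2⟩

theorem det_hom (a : Matrix σ σ (MvPolynomial σ k)) {e : ℕ}
    (ha : ∀ i j, (a i j).IsHomogeneous e) : a.det.IsHomogeneous (Fintype.card σ * e) := by
  rw [Matrix.det_apply]
  apply IsHomogeneous.sum
  intro τ _
  have h1 : (∏ i, a (τ i) i).IsHomogeneous (∑ _i : σ, e) :=
    IsHomogeneous.prod _ _ _ fun i _ => ha _ _
  rw [Finset.sum_const, smul_eq_mul, Finset.card_univ] at h1
  rw [Units.smul_def]
  exact (mem_homogeneousSubmodule _ _).mp
    ((homogeneousSubmodule σ k (Fintype.card σ * e)).toAddSubgroup.zsmul_mem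
      ((mem_homogeneousSubmodule _ _).mpr h1) _)

theorem hess_notMem (f : MvPolynomial σ k) {d : ℕ} (hd : 2 ≤ d) (hd0 : ((d - 1 : ℕ) : k) ≠ 0)
    (hf : f.IsHomogeneous d) (h0 : Nondeg f) : hess f ∉ jac f := by
  obtain ⟨K, a, hK, ha, h1⟩ := exists_data f hd hf h0
  intro hmem
  have hKp : ∀ _i : σ, 0 < K := fun _ => by omega
  have h2 := res_hess (fun _ => K) hKp a f hf (fun _ => 1)
    (fun i => by rw [h1 i, map_one, one_mul])
  rw [res_mem (fun _ => K) hKp a (fun j => pderiv j f) (fun _ => 1)
    (fun i => by rw [h1 i, map_one, one_mul]) hmem] at h2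
  refine Finset.prod_ne_zero_iff.mpr (fun i _ => ?_) h2.symm
  rw [mul_one]; exact hd0

/-- Every form of degree `n (d - 2)` is congruent to a multiple of the Hessian. -/
theorem exists_socle (f : MvPolynomial σ k) {d : ℕ} (hd : 2 ≤ d) (hd0 : ((d - 1 : ℕ) : k) ≠ 0)
    (hf : f.IsHomogeneous d) (h0 : Nondeg f) (P : MvPolynomial σ k)
    (hP : P.IsHomogeneous (Fintype.card σ * (d - 2))) : ∃ c : k, P - C c * hess f ∈ jac f := by
  obtain ⟨K, a, hK, ha, h1⟩ := exists_data f hd hf h0
  have hKp : ∀ _i : σ, 0 < K := fun _ => by omega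
  obtain ⟨Mo, hMo⟩ := dual K (by omega) (fun j => pderiv j f) a h1
  have hdeg : Fintype.card σ * (d - 2) + Fintype.card σ * (K - (d - 1)) = ∑ _i : σ, (K - 1) := by
    rw [Finset.sum_const, smul_eq_mul, Finset.card_univ, ← mul_add]
    congr 1
    omega
  have key : ∀ Q : MvPolynomial σ k, Q.IsHomogeneous (Fintype.card σ * (d - 2)) →
      Ideal.Quotient.mk (Ideal.span (Set.range fun j => pderiv j f)) Q =
      algebraMap k _ (res (fun _ => K) a Q) * coeff 0 Mo := by
    intro Q hQ
    rw [hMo Q, coeff_top_mul_hom (algebraMap k _) (fun _ => K) (Q * a.det) (by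
      rw [← hdeg]; exact hQ.mul (det_hom a ha)) Mo]
    unfold res
    rw [mul_comm Q a.det]
  have hH : (hess f).IsHomogeneous (Fintype.card σ * (d - 2)) := by
    unfold hess
    apply det_hom
    intro i j
    rw [Matrix.of_apply]
    have := (hf.pderiv (i := j)).pderiv (i := i)
    rwa [show d - 1 - 1 = d - 2 by omega] at this
  have h2 := res_hess (fun _ => K) hKp a f hf (fun _ => 1)
    (fun i => by rw [h1 i, map_one, one_mul])
  set r := ∏ _i : σ, ((d - 1 : ℕ) : k) * 1 with hr
  have hr0 : r ≠ 0 := Finset.prod_ne_zero_iff.mpr fun i _ => by rw [mul_one]; exact hd0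
  refine ⟨res (fun _ => K) a P / r, ?_⟩
  unfold jac
  rw [← Ideal.Quotient.eq_zero_iff_mem, map_sub, map_mul, key P hP, key (hess f) hH, h2]
  have h3 : Ideal.Quotient.mk (Ideal.span (Set.range fun j => pderiv j f))
      (C (res (fun _ => K) a P / r)) = algebraMap k _ (res (fun _ => K) a P / r) := rfl
  rw [h3, ← mul_assoc, ← map_mul, div_mul_cancel₀ _ hr0, sub_self]

end

end Pool.Agent.U186.AF
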