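import Pool.Agent.U186.AF.Disc

/-!
Extension of the associated form times the discriminant.
-/

set_option linter.unusedSectionVars false

namespace Pool.Agent.U186.AF

open MvPolynomial Matrix

section
variable {σ : Type*} [Fintype σ] [DecidableEq σ] {k : Type*} [Field k] [IsAlgClosed k]
  [CharZero k] {d : ℕ}

theorem linPow_hom (z : σ → k) (N : ℕ) : ((∑ j, C (z j) * X j) ^ N : MvPolynomial σ k).IsHomogeneous N := by
  have h : (∑ j, C (z j) * X j : MvPolynomial σ k).IsHomogeneous 1 := by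
    apply IsHomogeneous.sum
    intro j _
    have := (isHomogeneous_C σ (z j)).mul (isHomogeneous_X k j)
    rwa [zero_add] at this
  have := h.pow N
  rwa [one_mul] at this

theorem uniq (hd : 2 ≤ d) (hd1 : ((d - 1 : ℕ) : k) ≠ 0) (v : Mon σ d → k)
    (hv : Nondeg (form v)) (P : MvPolynomial σ k) {c w : k}
    (hc : P - C c * hess (form v) ∈ jac (form v)) (hw : P - C w * hess (form v) ∈ jac (form v)) :
    w = c := by
  by_contra hne
  apply hess_notMem (form v) hd hd1 (form_hom v) hv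
  have h3 : C (w - c)⁻¹ * ((P - C c * hess (form v)) - (P - C w * hess (form v))) ∈
      jac (form v) := Ideal.mul_mem_left _ _ (Ideal.sub_mem _ hc hw)
  have h4 : C (w - c)⁻¹ * ((P - C c * hess (form v)) - (P - C w * hess (form v))) =
      (C ((w - c)⁻¹ * (w - c)) * hess (form v) : MvPolynomial σ k) := by
    rw [C_mul, C_sub]; ring
  rw [h4, inv_mul_cancel₀ (sub_ne_zero.mpr hne), C_1, one_mul] at h3
  exact h3

theorem term_eq {N : ℕ} (Θ : Mon σ N → MvPolynomial (Mon σ d) k) (v : Mon σ d → k) (z : σ → k)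
    (κ : σ → ℕ) (t : ℕ) :
    eval z (MvPolynomial.map (eval v) (C ((t : MvPolynomial (Mon σ d) k) *
      lin Θ (∏ j, X j ^ κ j)) * ∏ j, X j ^ κ j)) =
    lin (fun α => eval v (Θ α)) ((t : MvPolynomial σ k) * ∏ j, (C (z j) * X j) ^ κ j) := by
  have h5 : (∏ j, (C (z j) * X j) ^ κ j : MvPolynomial σ k) =
      C (∏ j, z j ^ κ j) * ∏ j, X j ^ κ j := by
    rw [map_prod, ← Finset.prod_mul_distrib]
    refine Finset.prod_congr rfl fun j _ => ?_
    rw [mul_pow, C_pow]
  have h6 : (t : MvPolynomial σ k) = C (t : k) := (map_natCast C _).symm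
  have h7 : lin (fun α => eval v (Θ α)) (∏ j, X j ^ κ j : MvPolynomial σ k) =
      eval v (lin Θ (∏ j, X j ^ κ j)) := by
    rw [← lin_map, map_prod]
    simp only [map_pow, map_X]
  have h8 : MvPolynomial.map (eval v) (∏ j, X j ^ κ j) = (∏ j, X j ^ κ j : MvPolynomial σ k) := by
    rw [map_prod]
    simp only [map_pow, map_X]
  have h9 : eval z (∏ j, X j ^ κ j : MvPolynomial σ k) = ∏ j, z j ^ κ j := by
    rw [map_prod]
    simp only [map_pow, eval_X]
  rw [h5, h6, lin_C_mul, lin_C_mul, h7, map_mul, map_C, h8, map_mul, eval_C, h9, map_mul,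
    map_natCast]
  ring

theorem extends_one (hd : 2 ≤ d) [Nonempty σ] (Δ : MvPolynomial (Mon σ d) k) (hΔ0 : Δ ≠ 0)
    (hΔ : ∀ v, ¬ Nondeg (form v) → eval v Δ = 0) :
    ∃ Ψ : MvPolynomial σ (MvPolynomial (Mon σ d) k),
      Ψ.IsHomogeneous (Fintype.card σ * (d - 2)) ∧
      ∀ v : Mon σ d → k, Nondeg (form v) → ∀ z : σ → k, ∃ c : k,
        (∀ w : k, (∑ j, C (z j) * X j) ^ (Fintype.card σ * (d - 2)) - C w * hess (form v) ∈
          jac (form v) ↔ w = c) ∧
        eval z (MvPolynomial.map (eval v) Ψ) = c * eval v Δ := by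
  classical
  have hd1 : ((d - 1 : ℕ) : k) ≠ 0 := Nat.cast_ne_zero.mpr (by omega)
  obtain ⟨Θ, h1, h2⟩ := exists_lin hd Δ hΔ0 hΔ
  refine ⟨∑ κ ∈ Finset.piAntidiag (Finset.univ : Finset σ)
      (Fintype.card σ * (d - 2)),
    C ((Nat.multinomial Finset.univ κ : MvPolynomial (Mon σ d) k) *
      lin Θ (∏ j, X j ^ κ j)) * ∏ j, X j ^ κ j, ?_, ?_⟩
  · apply IsHomogeneous.sum
    intro κ hκ
    have h3 : (∏ j, X j ^ κ j : MvPolynomial σ (MvPolynomial (Mon σ d) k)).IsHomogeneous
        (∑ j, κ j) := IsHomogeneous.prod _ _ _ fun j _ => isHomogeneous_X_pow j (κ j)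
    rw [Finset.mem_piAntidiag] at hκ
    rw [hκ.1] at h3
    have := (isHomogeneous_C σ ((Nat.multinomial Finset.univ κ : MvPolynomial (Mon σ d) k) *
      lin Θ (∏ j, X j ^ κ j))).mul h3
    rwa [zero_add] at this
  · intro v hv z
    obtain ⟨c, hc⟩ := exists_socle (form v) hd hd1 (form_hom v) hv _ (linPow_hom z _)
    refine ⟨c, fun w => ⟨fun hw => ?_, fun hw => by rw [hw]; exact hc⟩, ?_⟩
    · exact uniq hd hd1 v hv _ hc hw
    · rw [← lin_spec Δ Θ h1 h2 v _ c hc, Finset.sum_pow_eq_sum_piAntidiag, lin_sum, map_sum,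
        map_sum]
      exact Finset.sum_congr rfl fun κ _ => term_eq Θ v z κ _

end

end Pool.Agent.U186.AF
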