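import Pool.Agent.U186.AF.Dual

/-!
Forms given by their coefficient vectors.
-/

set_option linter.unusedSectionVars false

namespace Pool.Agent.U186.AF

open MvPolynomial Matrix

/-- Exponent vectors of the monomials of degree `d` in the variables indexed by `σ`. -/
abbrev Mon (σ : Type*) (d : ℕ) : Type _ := {m : σ →₀ ℕ // m.degree = d}

noncomputable instance (σ : Type*) [Finite σ] (d : ℕ) : Fintype (Mon σ d) :=
  haveI : Finite (Mon σ d) := (Finsupp.finite_of_degree_eq d).to_subtype
  Fintype.ofFinite _

section
variable {σ : Type*} [Fintype σ] [DecidableEq σ] {A B : Type*} [CommRing A] [CommRing B] {d : ℕ}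

/-- The form with coefficient vector `c`. -/
noncomputable def form (c : Mon σ d → A) : MvPolynomial σ A := ∑ m, monomial m.1 (c m)

theorem coeff_form (c : Mon σ d → A) (m : Mon σ d) : coeff m.1 (form c) = c m := by
  classical
  unfold form
  rw [coeff_sum, Finset.sum_eq_single m]
  · rw [coeff_monomial, if_pos rfl]
  · intro m' _ hm
    rw [coeff_monomial, if_neg]
    intro h
    exact hm (Subtype.ext h)
  · intro h; exact absurd (Finset.mem_univ m) h

theorem coeff_form_of_ne (c : Mon σ d → A) (m : σ →₀ ℕ) (hm : m.degree ≠ d) :
    coeff m (form c) = 0 := by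
  classical
  unfold form
  rw [coeff_sum]
  refine Finset.sum_eq_zero fun m' _ => ?_
  rw [coeff_monomial, if_neg]
  intro h
  exact hm (h ▸ m'.2)

theorem form_hom (c : Mon σ d → A) : (form c).IsHomogeneous d := by
  apply IsHomogeneous.sum
  intro m _
  exact isHomogeneous_monomial _ m.2

theorem eq_form {f : MvPolynomial σ A} (hf : f.IsHomogeneous d) :
    f = form (fun m : Mon σ d => coeff m.1 f) := by
  apply MvPolynomial.ext
  intro m
  by_cases hm : m.degree = d
  · rw [coeff_form (fun m : Mon σ d => coeff m.1 f) ⟨m, hm⟩]
  · rw [coeff_form_of_ne _ _ hm]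
    by_contra h
    exact hm (by rw [Finsupp.degree_eq_weight_one]; exact hf h)

theorem map_form (φ : A →+* B) (c : Mon σ d → A) :
    MvPolynomial.map φ (form c) = form fun m => φ (c m) := by
  unfold form
  rw [map_sum]
  simp only [map_monomial]

theorem map_pderiv (φ : A →+* B) (f : MvPolynomial σ A) (l : σ) :
    MvPolynomial.map φ (pderiv l f) = pderiv l (MvPolynomial.map φ f) := by
  rw [pderiv_map]

theorem map_hess (φ : A →+* B) (f : MvPolynomial σ A) :
    MvPolynomial.map φ (hess f) = hess (MvPolynomial.map φ f) := by
  unfold hess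
  rw [RingHom.map_det]
  congr 1
  ext1 i j
  simp only [RingHom.mapMatrix_apply, Matrix.map_apply, Matrix.of_apply, map_pderiv]

/-- coefficients of derivatives -/
theorem coeff_pderiv (f : MvPolynomial σ A) (l : σ) (m : σ →₀ ℕ) :
    coeff m (pderiv l f) = coeff (m + Finsupp.single l 1) f * (m l + 1 : ℕ) := by
  classical
  induction f using MvPolynomial.induction_on' with
  | monomial u a =>
    rw [pderiv_monomial, coeff_monomial, coeff_monomial]
    by_cases h : u = m + Finsupp.single l 1
    · subst h
      simp
    · rw [if_neg h, zero_mul]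
      split_ifs with h2
      · -- then `u l = 0`
        by_cases h3 : u l = 0
        · rw [h3]; simp
        · exfalso
          apply h
          rw [← h2]
          ext j
          by_cases hj : j = l
          · subst hj; simp; omega
          · simp [Ne.symm hj]
      · rfl
  | add p q hp hq => rw [map_add, coeff_add, hp, hq, coeff_add, add_mul]

end

end Pool.Agent.U186.AF
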