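import Pool.Agent.U186.AF.Inertia

/-!
The residue functional in the direction of a variable.
-/

set_option linter.unusedSectionVars false

namespace Pool.Agent.U186.AF

open MvPolynomial Matrix

section
variable {σ : Type*} [Fintype σ] [DecidableEq σ] {A : Type*} [CommRing A] {d : ℕ}

/-- the system `X_i ^ M`, `∂_l f` (`l ≠ i`) -/
noncomputable def sysG (i : σ) (M : ℕ) (f : MvPolynomial σ A) (l : σ) : MvPolynomial σ A :=
  if l = i then X i ^ M else pderiv l f

/-- exponents -/
def expo (i : σ) (K M : ℕ) (j : σ) : ℕ := if j = i then M else K * M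

/-- constants -/
def cst (i : σ) (β : A) (M : ℕ) (j : σ) : A := if j = i then 1 else β ^ M

theorem exists_matrix (i : σ) (f : MvPolynomial σ A) (β : A) (K M : ℕ)
    (h : ∀ j, C β * X j ^ K ∈ Ideal.span (Set.range (sysX i f))) :
    ∃ a : Matrix σ σ (MvPolynomial σ A),
      ∀ j, ∑ l, a j l * sysG i M f l = C (cst i β M j) * X j ^ expo i K M j := by
  have h1 : ∀ j, ∃ b : σ → MvPolynomial σ A, ∑ l, b l * sysX i f l = C β * X j ^ K := fun j =>
    (Ideal.mem_span_range_iff_exists_fun).mp (h j)
  choose b hb using h1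
  let w : σ → MvPolynomial σ A := fun j =>
    ∑ s ∈ Finset.range M, (C β * X j ^ K) ^ s * (X i * b j i) ^ (M - 1 - s)
  have hw : ∀ j, w j * (C β * X j ^ K - X i * b j i) =
      (C β * X j ^ K) ^ M - (X i * b j i) ^ M := fun j =>
    (Commute.all _ _).geom_sum₂_mul M
  refine ⟨Matrix.of fun j l => if j = i then (if l = i then 1 else 0) else
    (if l = i then b j i ^ M else w j * b j l), fun j => ?_⟩
  by_cases hj : j = i
  · subst hj
    rw [Finset.sum_eq_single j]
    · simp [sysG, cst, expo]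
    · intro l _ hl
      simp [hl]
    · intro h; exact absurd (Finset.mem_univ _) h
  · rw [← Finset.add_sum_erase _ _ (Finset.mem_univ i)]
    have h2 : ∀ l ∈ Finset.univ.erase i, (Matrix.of fun j l => if j = i then
        (if l = i then (1 : MvPolynomial σ A) else 0) else
        (if l = i then b j i ^ M else w j * b j l)) j l * sysG i M f l =
        w j * (b j l * sysX i f l) := by
      intro l hl
      have hl' := Finset.ne_of_mem_erase hl
      simp only [Matrix.of_apply, if_neg hj, if_neg hl', sysG, sysX]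
      ring
    rw [Finset.sum_congr rfl h2, ← Finset.mul_sum]
    have h3 := hb j
    rw [← Finset.add_sum_erase _ _ (Finset.mem_univ i)] at h3
    have h4 : ∑ l ∈ Finset.univ.erase i, b j l * sysX i f l = C β * X j ^ K - X i * b j i := by
      rw [← h3]
      simp only [sysX, if_true]
      ring
    rw [h4, hw j]
    simp only [Matrix.of_apply, if_neg hj, if_true, sysG, cst, expo]
    rw [mul_pow, mul_pow, ← C_pow, ← pow_mul]
    ring

/-- the transposed Hessian matrix -/
noncomputable def hm (f : MvPolynomial σ A) : Matrix σ σ (MvPolynomial σ A) :=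
  (Matrix.of fun i j => pderiv i (pderiv j f)).transpose

theorem det_hm (f : MvPolynomial σ A) : (hm f).det = hess f := by
  unfold hm hess
  rw [Matrix.det_transpose]

theorem X_mul_hess (f : MvPolynomial σ A) (hf : f.IsHomogeneous d) (i : σ) :
    X i * hess f = ∑ l, (hm f).adjugate i l * (C ((d - 1 : ℕ) : A) * pderiv l f) := by
  have h1 : ((hm f).adjugate * hm f).mulVec (fun l => X l) i =
      ∑ l, (hm f).adjugate i l * (C ((d - 1 : ℕ) : A) * pderiv l f) := by
    rw [← Matrix.mulVec_mulVec]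
    refine Finset.sum_congr rfl fun l _ => ?_
    rw [← euler_hess f hf l]; rfl
  rw [Matrix.adjugate_mul, Matrix.smul_mulVec, Matrix.one_mulVec, det_hm] at h1
  rw [← h1, mul_comm]; rfl

/-- value on the principal minor -/
theorem res_minor (i : σ) (f : MvPolynomial σ A) (hf : f.IsHomogeneous d) (β : A) (K N : ℕ)
    (hK : 0 < K) (a : Matrix σ σ (MvPolynomial σ A))
    (ha : ∀ j, ∑ l, a j l * sysG i (N + 1) f l =
      C (cst i β (N + 1) j) * X j ^ expo i K (N + 1) j) :
    res (expo i K (N + 1)) a (C ((d - 1 : ℕ) : A) * X i ^ N * (hm f).adjugate i i) =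
      ∏ j, ((d - 1 : ℕ) : A) * cst i β (N + 1) j := by
  have hp : ∀ j, 0 < expo i K (N + 1) j := by
    intro j
    unfold expo
    split_ifs
    · omega
    · positivity
  have h1 : C ((d - 1 : ℕ) : A) * X i ^ N * (hm f).adjugate i i =
      ((hm f).updateRow i ((C ((d - 1 : ℕ) : A) * X i ^ N) • Pi.single i 1)).det := by
    rw [Matrix.det_updateRow_smul, Matrix.adjugate_apply]
  rw [h1]
  refine res_det (expo i K (N + 1)) hp a _ (sysG i (N + 1) f) _ _ ha fun l => ?_
  by_cases hl : l = i
  · subst hl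
    rw [Finset.sum_eq_single l]
    · rw [Matrix.updateRow_self]
      simp [sysG]
      ring
    · intro j _ hj
      rw [Matrix.updateRow_self]
      simp [hj]
    · intro h; exact absurd (Finset.mem_univ _) h
  · have h2 : ∀ j, ((hm f).updateRow i ((C ((d - 1 : ℕ) : A) * X i ^ N) • Pi.single i 1)) l j =
        hm f l j := by
      intro j
      rw [Matrix.updateRow_ne hl]
    simp only [h2]
    rw [sysG, if_neg hl]
    exact euler_hess f hf l

theorem functional (i : σ) (f : MvPolynomial σ A) (hf : f.IsHomogeneous d) (β Δ : A) (K N : ℕ)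
    (hK : 0 < K) (h : ∀ j, C β * X j ^ K ∈ Ideal.span (Set.range (sysX i f)))
    (hΔ : X i ^ N * C Δ ∈ Ideal.span (Set.range (sysE i f))) :
    ∃ (Z : MvPolynomial σ A) (κ : σ →₀ ℕ), (∀ l P, coeff κ (Z * (pderiv l f * P)) = 0) ∧
      coeff κ (Z * hess f) =
        (d : A) * (∏ j, ((d - 1 : ℕ) : A) * cst i β (N + 1) j) * Δ := by
  obtain ⟨a, ha⟩ := exists_matrix i f β K (N + 1) h
  obtain ⟨s, hs⟩ := (Ideal.mem_span_range_iff_exists_fun).mp hΔ
  have hp : ∀ j, 0 < expo i K (N + 1) j := by
    intro j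
    unfold expo
    split_ifs
    · omega
    · positivity
  set I := Ideal.span (Set.range (sysG i (N + 1) f)) with hI
  have hmem : ∀ P ∈ I, res (expo i K (N + 1)) a P = 0 := fun P hP =>
    res_mem (expo i K (N + 1)) hp a _ _ ha hP
  have hdl : ∀ l, l ≠ i → pderiv l f ∈ I := fun l hl =>
    Ideal.subset_span ⟨l, by simp [sysG, hl]⟩
  have hXi : X i ^ (N + 1) ∈ I := Ideal.subset_span ⟨i, by simp [sysG]⟩
  -- `s_i f ≡ X_i ^ N Δ`
  have e1 : s i * f - X i ^ N * C Δ ∈ I := by
    rw [← hs, ← Finset.add_sum_erase _ _ (Finset.mem_univ i)]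
    have : s i * f - (s i * sysE i f i + ∑ l ∈ Finset.univ.erase i, s l * sysE i f l) =
        - ∑ l ∈ Finset.univ.erase i, s l * sysE i f l := by
      rw [sysE, if_pos rfl]; ring
    rw [this]
    refine Ideal.neg_mem_iff _ |>.mpr (Ideal.sum_mem _ fun l hl => Ideal.mul_mem_left _ _ ?_)
    rw [sysE, if_neg (Finset.ne_of_mem_erase hl)]
    exact hdl l (Finset.ne_of_mem_erase hl)
  -- `X_i ∂_i f ≡ d f`
  have e2 : X i * pderiv i f - C (d : A) * f ∈ I := by
    have h1 := hf.sum_X_mul_pderiv
    rw [nsmul_eq_mul, ← map_natCast (C : A →+* MvPolynomial σ A),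
      ← Finset.add_sum_erase _ _ (Finset.mem_univ i)] at h1
    have : X i * pderiv i f - C (d : A) * f =
        - ∑ l ∈ Finset.univ.erase i, X l * pderiv l f := by
      rw [← h1]; ring
    rw [this]
    exact Ideal.neg_mem_iff _ |>.mpr (Ideal.sum_mem _ fun l hl =>
      Ideal.mul_mem_left _ _ (hdl l (Finset.ne_of_mem_erase hl)))
  refine ⟨a.det * (X i ^ 2 * s i), top (expo i K (N + 1)), fun l P => ?_, ?_⟩
  · rw [mul_assoc]
    change res (expo i K (N + 1)) a (X i ^ 2 * s i * (pderiv l f * P)) = 0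
    apply hmem
    by_cases hl : l = i
    · subst hl
      have : X l ^ 2 * s l * (pderiv l f * P) =
          (X l * s l * P) * (X l * pderiv l f - C (d : A) * f) +
          (X l * P * C (d : A)) * (s l * f - X l ^ N * C Δ) +
          (P * C (d : A) * C Δ) * X l ^ (N + 1) := by ring
      rw [this]
      exact Ideal.add_mem _ (Ideal.add_mem _ (Ideal.mul_mem_left _ _ e2)
        (Ideal.mul_mem_left _ _ e1)) (Ideal.mul_mem_left _ _ hXi)
    · have : X i ^ 2 * s i * (pderiv l f * P) = (X i ^ 2 * s i * P) * pderiv l f := by ring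
      rw [this]
      exact Ideal.mul_mem_left _ _ (hdl l hl)
  · rw [mul_assoc]
    change res (expo i K (N + 1)) a (X i ^ 2 * s i * hess f) = _
    have e3 : X i ^ 2 * s i * hess f - C ((d : A) * Δ) *
        (C ((d - 1 : ℕ) : A) * X i ^ N * (hm f).adjugate i i) ∈ I := by
      have h1 := X_mul_hess f hf i
      rw [← Finset.add_sum_erase _ _ (Finset.mem_univ i)] at h1
      have : X i ^ 2 * s i * hess f - C ((d : A) * Δ) *
          (C ((d - 1 : ℕ) : A) * X i ^ N * (hm f).adjugate i i) =
          ((hm f).adjugate i i * C ((d - 1 : ℕ) : A) * s i) *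
            (X i * pderiv i f - C (d : A) * f) +
          ((hm f).adjugate i i * C ((d - 1 : ℕ) : A) * C (d : A)) *
            (s i * f - X i ^ N * C Δ) +
          (X i * s i) * ∑ l ∈ Finset.univ.erase i,
            (hm f).adjugate i l * (C ((d - 1 : ℕ) : A) * pderiv l f) := by
        have h2 : X i ^ 2 * s i * hess f = X i * s i * (X i * hess f) := by ring
        rw [h2, h1, C_mul]
        ring
      rw [this]
      refine Ideal.add_mem _ (Ideal.add_mem _ (Ideal.mul_mem_left _ _ e2)
        (Ideal.mul_mem_left _ _ e1)) (Ideal.mul_mem_left _ _ (Ideal.sum_mem _ fun l hl => ?_))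
      exact Ideal.mul_mem_left _ _ (Ideal.mul_mem_left _ _ (hdl l (Finset.ne_of_mem_erase hl)))
    have e4 := hmem _ e3
    have e5 : X i ^ 2 * s i * hess f = (X i ^ 2 * s i * hess f - C ((d : A) * Δ) *
        (C ((d - 1 : ℕ) : A) * X i ^ N * (hm f).adjugate i i)) + C ((d : A) * Δ) *
        (C ((d - 1 : ℕ) : A) * X i ^ N * (hm f).adjugate i i) := by ring
    rw [e5, res_add, e4, zero_add, res_C_mul, res_minor i f hf β K N hK a ha]
    ring

end

section
variable {σ : Type*} [Fintype σ] [DecidableEq σ] {k : Type*} [Field k] [IsAlgClosed k]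
  [CharZero k] {d : ℕ}

theorem functional_gen (hd : 2 ≤ d) (i : σ) (Δ : MvPolynomial (Mon σ d) k)
    (hΔ : ∀ v, ¬ Nondeg (form v) → eval v Δ = 0) :
    ∃ (Z : MvPolynomial σ (MvPolynomial (Mon σ d) k)) (κ : σ →₀ ℕ)
      (γ : MvPolynomial (Mon σ d) k), γ ≠ 0 ∧ γ ∈ supported k {m : Mon σ d | m.1 i = 0} ∧
      (∀ l P, coeff κ (Z * (pderiv l (form (gen σ k d)) * P)) = 0) ∧
      coeff κ (Z * hess (form (gen σ k d))) = γ * Δ := by
  obtain ⟨β, hβ0, hβs, hβ⟩ := macaulay (k := k) hd i (Nat.lt_succ_self (Fintype.card σ * (d - 2)))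
  obtain ⟨N, hN⟩ := inertia (by omega) i Δ hΔ
  obtain ⟨Z, κ, h1, h2⟩ := functional i (form (gen σ k d)) (form_hom _) β Δ _ N
    (Nat.succ_pos _) hβ hN
  refine ⟨Z, κ, _, ?_, ?_, h1, h2⟩
  · apply mul_ne_zero
    · exact Nat.cast_ne_zero.mpr (by omega)
    · rw [Finset.prod_ne_zero_iff]
      intro j _
      apply mul_ne_zero
      · exact Nat.cast_ne_zero.mpr (by omega)
      · unfold cst
        split_ifs
        · exact one_ne_zero
        · exact pow_ne_zero _ hβ0
  · refine Subalgebra.mul_mem _ (natCast_mem _ _) (Subalgebra.prod_mem _ fun j _ =>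
      Subalgebra.mul_mem _ (natCast_mem _ _) ?_)
    unfold cst
    split_ifs
    · exact Subalgebra.one_mem _
    · exact Subalgebra.pow_mem _ hβs _

end

end Pool.Agent.U186.AF
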