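import Pool.Agent.U186.AF.Functional

/-!
Gluing the functionals of the coordinate directions.
-/

set_option linter.unusedSectionVars false

namespace Pool.Agent.U186.AF

open MvPolynomial Matrix

section
variable {σ : Type*} [Fintype σ] [DecidableEq σ] {A B : Type*} [CommRing A] [CommRing B]

/-- the functional on polynomials given by a vector of values on the monomials of degree `N` -/
noncomputable def lin {N : ℕ} (ψ : Mon σ N → A) (P : MvPolynomial σ A) : A :=
  ∑ α, coeff α.1 P * ψ α

theorem lin_add {N : ℕ} (ψ : Mon σ N → A) (P Q : MvPolynomial σ A) :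
    lin ψ (P + Q) = lin ψ P + lin ψ Q := by
  unfold lin
  rw [← Finset.sum_add_distrib]
  refine Finset.sum_congr rfl fun α _ => ?_
  rw [coeff_add, add_mul]

theorem lin_C_mul {N : ℕ} (ψ : Mon σ N → A) (a : A) (P : MvPolynomial σ A) :
    lin ψ (C a * P) = a * lin ψ P := by
  unfold lin
  rw [Finset.mul_sum]
  refine Finset.sum_congr rfl fun α _ => ?_
  rw [coeff_C_mul, mul_assoc]

theorem lin_sum {ι : Type*} {N : ℕ} (ψ : Mon σ N → A) (s : Finset ι) (P : ι → MvPolynomial σ A) :
    lin ψ (∑ j ∈ s, P j) = ∑ j ∈ s, lin ψ (P j) := by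
  unfold lin
  rw [Finset.sum_comm]
  refine Finset.sum_congr rfl fun α _ => ?_
  rw [coeff_sum, Finset.sum_mul]

theorem lin_smul {N : ℕ} (ψ : Mon σ N → A) (a : A) (P : MvPolynomial σ A) :
    lin (fun α => a * ψ α) P = a * lin ψ P := by
  unfold lin
  rw [Finset.mul_sum]
  refine Finset.sum_congr rfl fun α _ => ?_
  ring

theorem lin_map (φ : A →+* B) {N : ℕ} (ψ : Mon σ N → A) (P : MvPolynomial σ A) :
    lin (fun α => φ (ψ α)) (MvPolynomial.map φ P) = φ (lin ψ P) := by
  unfold lin
  rw [map_sum]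
  refine Finset.sum_congr rfl fun α _ => ?_
  rw [coeff_map, map_mul]

theorem lin_congr_hcomp {N : ℕ} (ψ : Mon σ N → A) (P : MvPolynomial σ A) :
    lin ψ (homogeneousComponent N P) = lin ψ P := by
  classical
  unfold lin
  refine Finset.sum_congr rfl fun α _ => ?_
  rw [coeff_homogeneousComponent, if_pos α.2]

theorem coeff_mul_hom {N : ℕ} (Z : MvPolynomial σ A) (κ : σ →₀ ℕ) {P : MvPolynomial σ A}
    (hP : P.IsHomogeneous N) :
    coeff κ (Z * P) = lin (fun α : Mon σ N => coeff κ (Z * monomial α.1 1)) P := by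
  conv_lhs => rw [eq_form hP]
  unfold form lin
  rw [Finset.mul_sum, coeff_sum]
  refine Finset.sum_congr rfl fun α _ => ?_
  rw [show (monomial α.1 (coeff α.1 P) : MvPolynomial σ A) =
      C (coeff α.1 P) * monomial α.1 1 by rw [C_mul_monomial, mul_one],
    mul_left_comm, coeff_C_mul]

attribute [local instance] MvPolynomial.gradedAlgebra in
theorem hcomp_mul_zero (a b : MvPolynomial σ A) {i n : ℕ} (hb : b.IsHomogeneous i) (h : ¬ i ≤ n) :
    homogeneousComponent n (a * b) = 0 := by
  have h1 := DirectSum.coe_decompose_mul_of_right_mem_of_not_le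
    (homogeneousSubmodule σ A) (a := a) (b := b) (i := i) (n := n)
    ((mem_homogeneousSubmodule i b).mpr hb) h
  have h2 : ∀ (p : MvPolynomial σ A) (j : ℕ),
      ((DirectSum.decompose (homogeneousSubmodule σ A) p j : homogeneousSubmodule σ A j) :
        MvPolynomial σ A) = homogeneousComponent j p := fun p j =>
    decomposition.decompose'_apply p j
  rw [h2] at h1
  exact h1

theorem hess_hom {d : ℕ} (f : MvPolynomial σ A) (hf : f.IsHomogeneous d) :
    (hess f).IsHomogeneous (Fintype.card σ * (d - 2)) := by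
  unfold hess
  rw [Matrix.det_apply]
  apply IsHomogeneous.sum
  intro τ _
  have h1 : (∏ i, (Matrix.of fun i j => pderiv i (pderiv j f)) (τ i) i).IsHomogeneous
      (∑ _i : σ, (d - 2)) := by
    apply IsHomogeneous.prod
    intro i _
    have := (hf.pderiv (i := i)).pderiv (i := τ i)
    rwa [show d - 1 - 1 = d - 2 by omega] at this
  rw [Finset.sum_const, smul_eq_mul, Finset.card_univ] at h1
  rw [Units.smul_def]
  exact (mem_homogeneousSubmodule _ _).mp
    ((homogeneousSubmodule σ A (Fintype.card σ * (d - 2))).toAddSubgroup.zsmul_mem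
      ((mem_homogeneousSubmodule _ _).mpr h1) _)

end

section
variable {τ : Type*} {k : Type*} [Field k]

/-- A gcd argument: fractions with denominators in polynomial subrings with trivial intersection. -/
theorem exists_common {ι : Type*} [Nonempty ι] (S : ι → Set τ) (hS : ∀ m, ∃ i, m ∉ S i)
    (γ : ι → MvPolynomial τ k) (hγ0 : ∀ i, γ i ≠ 0) (hγ : ∀ i, γ i ∈ supported k (S i))
    (ψ : ι → MvPolynomial τ k) (h : ∀ i j, γ j * ψ i = γ i * ψ j) :
    ∃ Ψ : MvPolynomial τ k, ∀ i, ψ i = γ i * Ψ := by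
  classical
  let i₀ : ι := Classical.arbitrary ι
  obtain ⟨b, a, g, hrel, hb, ha⟩ :=
    UniqueFactorizationMonoid.exists_reduced_factors (γ i₀) (hγ0 i₀) (ψ i₀)
  -- `γ i₀ = g b`, `ψ i₀ = g a`
  have hg : g ≠ 0 := by
    rintro rfl
    exact hγ0 i₀ (by rw [← hb, zero_mul])
  have hb0 : b ≠ 0 := by
    rintro rfl
    exact hγ0 i₀ (by rw [← hb, mul_zero])
  have hdvd : ∀ j, b ∣ γ j := by
    intro j
    have h1 := h i₀ j
    rw [← ha, ← hb] at h1
    have h2 : γ j * a = b * ψ j := by
      apply mul_left_cancel₀ hg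
      linear_combination h1
    exact hrel.dvd_of_dvd_mul_right (Dvd.intro _ h2.symm)
  have hdeg : ∀ m, degreeOf m b = 0 := by
    intro m
    obtain ⟨i, hi⟩ := hS m
    obtain ⟨e, he⟩ := hdvd i
    have he0 : e ≠ 0 := by
      rintro rfl
      exact hγ0 i (by rw [he, mul_zero])
    have h1 : degreeOf m (γ i) = 0 := by
      rw [← Nat.le_zero, degreeOf_le_iff]
      intro s hs
      by_contra hne
      rw [Nat.le_zero] at hne
      have h2 : m ∈ (γ i).vars := mem_vars m |>.mpr ⟨s, hs, Finsupp.mem_support_iff.mpr hne⟩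
      exact hi ((mem_supported.mp (hγ i)) h2)
    rw [he, degreeOf_mul_eq hb0 he0] at h1
    omega
  have hC : ∃ r : k, b = C r := by
    refine ⟨coeff 0 b, ?_⟩
    rw [← totalDegree_eq_zero_iff_eq_C]
    by_contra hne
    have : ∃ s ∈ b.support, s ≠ 0 := by
      by_contra hcon
      push Not at hcon
      apply hne
      rw [totalDegree_eq_zero_iff]
      intro s hs x
      rw [hcon s hs]; rfl
    obtain ⟨s, hs, hs0⟩ := this
    obtain ⟨m, hm⟩ := Finsupp.ne_iff.mp hs0
    exact hm (Nat.le_zero.mp (degreeOf_le_iff.mp (hdeg m).le s hs))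
  obtain ⟨r, hr⟩ := hC
  have hr0 : r ≠ 0 := by
    rintro rfl
    exact hb0 (by rw [hr, C_0])
  refine ⟨a * C r⁻¹, fun i => ?_⟩
  have h1 : ψ i₀ = γ i₀ * (a * C r⁻¹) := by
    rw [← hb, hr, ← ha]
    have : (C r : MvPolynomial τ k) * C r⁻¹ = 1 := by
      rw [← C_mul, mul_inv_cancel₀ hr0, C_1]
    linear_combination (-(g * a)) * this
  apply mul_left_cancel₀ (hγ0 i₀)
  rw [h i i₀, h1]
  ring

end

section
variable {σ : Type*} [Fintype σ] [DecidableEq σ] {k : Type*} [Field k] [IsAlgClosed k]
  [CharZero k] {d : ℕ}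

theorem map_eval_gen (v : Mon σ d → k) :
    MvPolynomial.map (eval v) (form (gen σ k d)) = form v := by
  rw [map_form]
  congr 1
  funext m
  simp [gen]

theorem map_eval_map_C (v : Mon σ d → k) (b : MvPolynomial σ k) :
    MvPolynomial.map (eval v) (MvPolynomial.map C b) = b := by
  rw [MvPolynomial.map_map]
  have : (eval v).comp C = RingHom.id k := RingHom.ext fun x => by simp
  rw [this, MvPolynomial.map_id]

/-- The common functional. -/
theorem exists_lin (hd : 2 ≤ d) [Nonempty σ] (Δ : MvPolynomial (Mon σ d) k) (hΔ0 : Δ ≠ 0)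
    (hΔ : ∀ v, ¬ Nondeg (form v) → eval v Δ = 0) :
    ∃ Ψ : Mon σ (Fintype.card σ * (d - 2)) → MvPolynomial (Mon σ d) k,
      (∀ l P, lin Ψ (pderiv l (form (gen σ k d)) * P) = 0) ∧
      lin Ψ (hess (form (gen σ k d))) = Δ := by
  classical
  have hd1 : ((d - 1 : ℕ) : k) ≠ 0 := Nat.cast_ne_zero.mpr (by omega)
  choose Z κ γ hγ0 hγs hkill hhess using fun i : σ => functional_gen hd i Δ hΔ
  let ψ : σ → Mon σ (Fintype.card σ * (d - 2)) → MvPolynomial (Mon σ d) k := fun i α =>
    coeff (κ i) (Z i * monomial α.1 1)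
  -- specialisation
  have hspec : ∀ (i : σ) (v : Mon σ d → k) (p : MvPolynomial σ k), p ∈ jac (form v) →
      coeff (κ i) (MvPolynomial.map (eval v) (Z i) * p) = 0 := by
    intro i v p hp
    obtain ⟨b, rfl⟩ := (Ideal.mem_span_range_iff_exists_fun).mp hp
    rw [Finset.mul_sum, coeff_sum]
    refine Finset.sum_eq_zero fun l _ => ?_
    have h1 := congrArg (eval v) (hkill i l (MvPolynomial.map C (b l)))
    rw [map_zero, ← coeff_map, map_mul, map_mul, map_pderiv, map_eval_gen, map_eval_map_C] at h1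
    rwa [mul_comm (b l)]
  have hval : ∀ (i : σ) (v : Mon σ d → k) (p : MvPolynomial σ k) (c : k),
      p - C c * hess (form v) ∈ jac (form v) →
      coeff (κ i) (MvPolynomial.map (eval v) (Z i) * p) = c * (eval v (γ i) * eval v Δ) := by
    intro i v p c hp
    have h1 := hspec i v _ hp
    rw [mul_sub, coeff_sub, sub_eq_zero, mul_left_comm, coeff_C_mul] at h1
    rw [h1]
    have h2 := congrArg (eval v) (hhess i)
    rw [← coeff_map, map_mul, map_hess, map_eval_gen, map_mul] at h2
    rw [h2]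
  have hrel : ∀ (α : Mon σ (Fintype.card σ * (d - 2))) (i j : σ), γ j * ψ i α = γ i * ψ j α := by
    intro α i j
    have h1 : Δ * (γ j * ψ i α - γ i * ψ j α) = 0 := by
      apply MvPolynomial.funext
      intro v
      rw [map_zero, map_mul]
      by_cases hv : eval v Δ = 0
      · rw [hv, zero_mul]
      · have hn : Nondeg (form v) := by
          by_contra hcon
          exact hv (hΔ v hcon)
        obtain ⟨c, hc⟩ := exists_socle (form v) hd hd1 (form_hom v) hn (monomial α.1 1)
          (isHomogeneous_monomial _ α.2)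
        have h2 : ∀ i, eval v (ψ i α) = c * (eval v (γ i) * eval v Δ) := by
          intro i
          rw [← hval i v _ c hc]
          simp only [ψ]
          rw [← coeff_map, map_mul, map_monomial, map_one]
        rw [map_sub, map_mul, map_mul, h2, h2]
        ring
    exact sub_eq_zero.mp ((mul_eq_zero.mp h1).resolve_left hΔ0)
  have hS : ∀ m : Mon σ d, ∃ i : σ, m ∉ {m : Mon σ d | m.1 i = 0} := by
    intro m
    by_contra hcon
    push Not at hcon
    have : m.1 = 0 := by
      ext i
      exact hcon i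
    have h1 := m.2
    rw [this] at h1
    simp at h1
    omega
  have hex := fun α => exists_common (fun i : σ => {m : Mon σ d | m.1 i = 0}) hS γ hγ0 hγs
    (fun i => ψ i α) (hrel α)
  choose Ψ hΨ using hex
  let i₀ : σ := Classical.arbitrary σ
  have hlin : ∀ P : MvPolynomial σ (MvPolynomial (Mon σ d) k),
      P.IsHomogeneous (Fintype.card σ * (d - 2)) → γ i₀ * lin Ψ P = coeff (κ i₀) (Z i₀ * P) := by
    intro P hP
    rw [coeff_mul_hom (Z i₀) (κ i₀) hP, ← lin_smul]
    congr 1
    funext α
    exact (hΨ α i₀).symm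
  refine ⟨Ψ, fun l P => ?_, ?_⟩
  · apply mul_left_cancel₀ (hγ0 i₀)
    rw [mul_zero, ← lin_congr_hcomp, hlin _ (homogeneousComponent_isHomogeneous _ _), mul_comm]
    by_cases hle : d - 1 ≤ Fintype.card σ * (d - 2)
    · rw [mul_comm (pderiv l (form (gen σ k d))), hcomp_mul _ _ ((form_hom _).pderiv) hle, mul_comm,
        mul_comm (homogeneousComponent _ P)]
      exact hkill i₀ l _
    · rw [mul_comm (pderiv l (form (gen σ k d))), hcomp_mul_zero _ _ ((form_hom _).pderiv) hle,
        zero_mul, coeff_zero]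
  · apply mul_left_cancel₀ (hγ0 i₀)
    rw [hlin _ (hess_hom _ (form_hom _)), hhess i₀]

/-- The specialised statement. -/
theorem lin_spec (Δ : MvPolynomial (Mon σ d) k)
    (Ψ : Mon σ (Fintype.card σ * (d - 2)) → MvPolynomial (Mon σ d) k)
    (h1 : ∀ l P, lin Ψ (pderiv l (form (gen σ k d)) * P) = 0)
    (h2 : lin Ψ (hess (form (gen σ k d))) = Δ) (v : Mon σ d → k) (P : MvPolynomial σ k) (c : k)
    (hP : P - C c * hess (form v) ∈ jac (form v)) :
    lin (fun α => eval v (Ψ α)) P = c * eval v Δ := by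
  obtain ⟨b, hb⟩ := (Ideal.mem_span_range_iff_exists_fun).mp hP
  have h3 : P = C c * hess (form v) + ∑ l, b l * pderiv l (form v) := by
    rw [hb]; ring
  have h4 : ∀ l, lin (fun α => eval v (Ψ α)) (b l * pderiv l (form v)) = 0 := by
    intro l
    have h5 := congrArg (eval v) (h1 l (MvPolynomial.map C (b l)))
    rw [map_zero, ← lin_map, map_mul, map_pderiv, map_eval_gen, map_eval_map_C] at h5
    rwa [mul_comm (b l)]
  rw [h3, lin_add, lin_sum, Finset.sum_eq_zero fun l _ => h4 l, add_zero, lin_C_mul]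
  have h6 := congrArg (eval v) h2
  rw [← lin_map, map_hess, map_eval_gen] at h6
  rw [h6]

end

end Pool.Agent.U186.AF
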