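import Pool.Agent.U186.AF.Macaulay

/-!
A polynomial vanishing on the degenerate forms is an inertia form.
-/

set_option linter.unusedSectionVars false

namespace Pool.Agent.U186.AF

open MvPolynomial Matrix

section
variable {σ : Type*} [Fintype σ] [DecidableEq σ] {A : Type*} [CommRing A] {d : ℕ}

/-- the exponent `(d - 1) e_i + e_l` -/
noncomputable def mm (hd : 1 ≤ d) (i l : σ) : Mon σ d :=
  ⟨Finsupp.single i (d - 1) + Finsupp.single l 1, by
    rw [map_add, Finsupp.degree_single, Finsupp.degree_single]; omega⟩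

theorem mm_le (hd : 1 ≤ d) (i l : σ) : d - 1 ≤ (mm hd i l).1 i := by
  simp [mm]

theorem mm_inj (hd : 1 ≤ d) (i : σ) : Function.Injective (mm (d := d) hd i) := by
  intro l l' h
  have h1 := congrArg Subtype.val h
  simp only [mm] at h1
  have h2 := add_left_cancel h1
  exact (Finsupp.single_left_inj one_ne_zero).mp h2

theorem exists_mm (hd : 1 ≤ d) (i : σ) (m : Mon σ d) (h : d - 1 ≤ m.1 i) :
    ∃ l, m = mm hd i l := by
  have h1 : Finsupp.single i (d - 1) ≤ m.1 := by
    intro j
    by_cases hj : i = j
    · subst hj; simpa using h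
    · rw [Finsupp.single_apply, if_neg hj]; exact Nat.zero_le _
  have h2 : (m.1 - Finsupp.single i (d - 1)).degree = 1 := by
    have := congrArg Finsupp.degree (add_tsub_cancel_of_le h1)
    rw [map_add, Finsupp.degree_single, m.2] at this
    omega
  have h3 : m.1 - Finsupp.single i (d - 1) ∈ Set.range (fun a : σ => Finsupp.single a 1) := by
    rw [Finsupp.range_single_one]; exact h2
  obtain ⟨l, hl⟩ := h3
  simp only at hl
  refine ⟨l, Subtype.ext ?_⟩
  change m.1 = Finsupp.single i (d - 1) + Finsupp.single l 1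
  rw [hl, add_tsub_cancel_of_le h1]

/-- the coefficient vector with the coefficients of `X_i ^ (d - 1) X_l` removed -/
def off (i : σ) (c : Mon σ d → A) (m : Mon σ d) : A := if m.1 i < d - 1 then c m else 0

theorem form_eq (hd : 1 ≤ d) (i : σ) (c : Mon σ d → A) :
    form c = form (off i c) + ∑ l, C (c (mm hd i l)) * (X i ^ (d - 1) * X l) := by
  classical
  have h1 : ∀ m : Mon σ d, monomial m.1 (c m) = monomial m.1 (off i c m) +
      ∑ l, if m = mm hd i l then monomial m.1 (c m) else 0 := by
    intro m
    by_cases h : m.1 i < d - 1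
    · rw [off, if_pos h, Finset.sum_eq_zero, add_zero]
      intro l _
      rw [if_neg]
      intro h'
      have := mm_le hd i l
      rw [← h'] at this
      omega
    · rw [off, if_neg h, monomial_zero, zero_add]
      obtain ⟨l, hl⟩ := exists_mm hd i m (not_lt.mp h)
      rw [Finset.sum_eq_single l]
      · rw [if_pos hl]
      · intro l' _ hne
        rw [if_neg]
        intro h'
        exact hne (mm_inj hd i (h'.symm.trans hl))
      · intro h; exact absurd (Finset.mem_univ _) h
  unfold form
  rw [Finset.sum_congr rfl fun m _ => h1 m, Finset.sum_add_distrib, Finset.sum_comm]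
  congr 1
  refine Finset.sum_congr rfl fun l _ => ?_
  rw [Finset.sum_ite_eq' Finset.univ (mm hd i l) fun m => monomial m.1 (c m), if_pos (Finset.mem_univ _)]
  rw [X_pow_eq_monomial, X, monomial_mul, C_mul_monomial]
  simp [mm]

theorem pderiv_form_eq (hd : 1 ≤ d) (i : σ) (c : Mon σ d → A) {l : σ} (hl : l ≠ i) :
    pderiv l (form c) = pderiv l (form (off i c)) + C (c (mm hd i l)) * X i ^ (d - 1) := by
  conv_lhs => rw [form_eq hd i c]
  rw [map_add, map_sum]
  congr 1
  rw [Finset.sum_eq_single l]
  · rw [pderiv_C_mul, Derivation.leibniz, pderiv_X_self, Derivation.leibniz_pow,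
      pderiv_X_of_ne hl.symm]
    simp
  · intro l' _ hne
    rw [pderiv_C_mul, Derivation.leibniz, pderiv_X_of_ne hne, Derivation.leibniz_pow,
      pderiv_X_of_ne hl.symm]
    simp
  · intro h; exact absurd (Finset.mem_univ _) h

/-- the system `F`, `∂_l F` (`l ≠ i`) -/
noncomputable def sysE (i : σ) (f : MvPolynomial σ A) (l : σ) : MvPolynomial σ A :=
  if l = i then f else pderiv l f

end

section
variable {σ : Type*} [Fintype σ] [DecidableEq σ] {k : Type*} [Field k] {d : ℕ}

/-- evaluation at a coefficient vector and a point -/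
noncomputable def ev (v : Mon σ d → k) (z : σ → k) :
    MvPolynomial σ (MvPolynomial (Mon σ d) k) →+* k := (eval z).comp (MvPolynomial.map (eval v))

theorem ev_C (v : Mon σ d → k) (z : σ → k) (a : MvPolynomial (Mon σ d) k) :
    ev v z (C a) = eval v a := by simp [ev]

theorem ev_X (v : Mon σ d → k) (z : σ → k) (j : σ) : ev v z (X j) = z j := by simp [ev]

theorem ev_form (v : Mon σ d → k) (z : σ → k) (c : Mon σ d → MvPolynomial (Mon σ d) k) :
    ev v z (form c) = eval z (form fun m => eval v (c m)) := by
  simp [ev, map_form]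

theorem ev_pderiv (v : Mon σ d → k) (z : σ → k) (l : σ) (f : MvPolynomial σ (MvPolynomial (Mon σ d) k)) :
    ev v z (pderiv l f) = eval z (pderiv l (MvPolynomial.map (eval v) f)) := by
  simp [ev, map_pderiv]

theorem eq_zero_of_ev [Infinite k] (p : MvPolynomial σ (MvPolynomial (Mon σ d) k))
    (h : ∀ v z, ev v z p = 0) : p = 0 := by
  have h1 : ∀ v : Mon σ d → k, MvPolynomial.map (eval v) p = 0 := by
    intro v
    apply MvPolynomial.funext
    intro z
    rw [map_zero]
    exact h v z
  apply MvPolynomial.ext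
  intro α
  rw [coeff_zero]
  apply MvPolynomial.funext
  intro v
  rw [← coeff_map, h1 v, coeff_zero, map_zero]

/-- independence of the coefficients of `X_i ^ (d - 1) X_l` -/
def Indep (i : σ) (a : MvPolynomial σ (MvPolynomial (Mon σ d) k)) : Prop :=
  ∀ v v' z, (∀ m : Mon σ d, m.1 i < d - 1 → v m = v' m) → ev v z a = ev v' z a

theorem Indep.add {i : σ} {a b : MvPolynomial σ (MvPolynomial (Mon σ d) k)} (ha : Indep i a)
    (hb : Indep i b) : Indep i (a + b) := fun v v' z h => by
  rw [map_add, map_add, ha v v' z h, hb v v' z h]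

theorem Indep.sub {i : σ} {a b : MvPolynomial σ (MvPolynomial (Mon σ d) k)} (ha : Indep i a)
    (hb : Indep i b) : Indep i (a - b) := fun v v' z h => by
  rw [map_sub, map_sub, ha v v' z h, hb v v' z h]

theorem Indep.mul {i : σ} {a b : MvPolynomial σ (MvPolynomial (Mon σ d) k)} (ha : Indep i a)
    (hb : Indep i b) : Indep i (a * b) := fun v v' z h => by
  rw [map_mul, map_mul, ha v v' z h, hb v v' z h]

theorem indep_X (i j : σ) : Indep (k := k) (d := d) i (X j) := fun v v' z _ => by
  rw [ev_X, ev_X]

theorem indep_X_pow (i j : σ) (N : ℕ) : Indep (k := k) (d := d) i (X j ^ N) := fun v v' z _ => by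
  rw [map_pow, map_pow, ev_X, ev_X]

theorem Indep.sum {i : σ} {ι : Type*} {s : Finset ι}
    {a : ι → MvPolynomial σ (MvPolynomial (Mon σ d) k)} (ha : ∀ j ∈ s, Indep i (a j)) :
    Indep i (∑ j ∈ s, a j) := fun v v' z h => by
  rw [map_sum, map_sum]
  exact Finset.sum_congr rfl fun j hj => ha j hj v v' z h

theorem off_congr (i : σ) {v v' : Mon σ d → k} (h : ∀ m : Mon σ d, m.1 i < d - 1 → v m = v' m) :
    off i v = off i v' := by
  funext m
  unfold off
  split_ifs with hm
  · exact h m hm
  · rfl

theorem eval_off_gen (i : σ) (v : Mon σ d → k) :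
    (fun m => eval v (off i (gen σ k d) m)) = off i v := by
  funext m
  unfold off gen
  split_ifs <;> simp

theorem indep_off (i : σ) : Indep i (form (off i (gen σ k d))) := fun v v' z h => by
  rw [ev_form, ev_form, eval_off_gen, eval_off_gen, off_congr i h]

theorem indep_pderiv_off (i l : σ) : Indep i (pderiv l (form (off i (gen σ k d)))) :=
  fun v v' z h => by
  rw [ev_pderiv, ev_pderiv, map_form, map_form, eval_off_gen, eval_off_gen, off_congr i h]

/-- the reducibility property -/
def Red (i : σ) (a : MvPolynomial σ (MvPolynomial (Mon σ d) k)) : Prop :=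
  ∃ (N : ℕ) (a' : MvPolynomial σ (MvPolynomial (Mon σ d) k)), Indep i a' ∧
    X i ^ N * a - a' ∈ Ideal.span (Set.range (sysE i (form (gen σ k d))))

theorem Red.add {i : σ} {a b : MvPolynomial σ (MvPolynomial (Mon σ d) k)} (ha : Red i a)
    (hb : Red i b) : Red i (a + b) := by
  obtain ⟨N, a', h1, h2⟩ := ha
  obtain ⟨M, b', h3, h4⟩ := hb
  refine ⟨N + M, X i ^ M * a' + X i ^ N * b',
    ((indep_X_pow i i M).mul h1).add ((indep_X_pow i i N).mul h3), ?_⟩
  have : X i ^ (N + M) * (a + b) - (X i ^ M * a' + X i ^ N * b') =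
      X i ^ M * (X i ^ N * a - a') + X i ^ N * (X i ^ M * b - b') := by ring
  rw [this]
  exact Ideal.add_mem _ (Ideal.mul_mem_left _ _ h2) (Ideal.mul_mem_left _ _ h4)

theorem Red.mul {i : σ} {a b : MvPolynomial σ (MvPolynomial (Mon σ d) k)} (ha : Red i a)
    (hb : Red i b) : Red i (a * b) := by
  obtain ⟨N, a', h1, h2⟩ := ha
  obtain ⟨M, b', h3, h4⟩ := hb
  refine ⟨N + M, a' * b', h1.mul h3, ?_⟩
  have : X i ^ (N + M) * (a * b) - a' * b' =
      (X i ^ M * b) * (X i ^ N * a - a') + a' * (X i ^ M * b - b') := by ring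
  rw [this]
  exact Ideal.add_mem _ (Ideal.mul_mem_left _ _ h2) (Ideal.mul_mem_left _ _ h4)

theorem red_of_indep {i : σ} {a : MvPolynomial σ (MvPolynomial (Mon σ d) k)} (ha : Indep i a) :
    Red i a := ⟨0, a, ha, by simp⟩

theorem red_C_X (hd : 1 ≤ d) (i : σ) (m : Mon σ d) :
    Red i (C (X m) : MvPolynomial σ (MvPolynomial (Mon σ d) k)) := by
  by_cases h : m.1 i < d - 1
  · apply red_of_indep
    intro v v' z hv
    rw [ev_C, ev_C, eval_X, eval_X, hv m h]
  · obtain ⟨l, rfl⟩ := exists_mm hd i m (not_lt.mp h)
    -- the case `l ≠ i`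
    have key : ∀ l, l ≠ i → X i ^ (d - 1) * C (X (mm hd i l)) -
        (- pderiv l (form (off i (gen σ k d)))) = sysE i (form (gen σ k d)) l := by
      intro l hl
      rw [sysE, if_neg hl, pderiv_form_eq hd i (gen σ k d) hl]
      have : gen σ k d (mm hd i l) = X (mm hd i l) := rfl
      rw [this]
      ring
    by_cases hl : l = i
    · subst hl
      refine ⟨d, ∑ j ∈ Finset.univ.erase l, pderiv j (form (off l (gen σ k d))) * X j -
        form (off l (gen σ k d)), ?_, ?_⟩
      · exact (Indep.sum fun j _ => (indep_pderiv_off l j).mul (indep_X l j)).sub (indep_off l)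
      · have h1 : form (gen σ k d) = form (off l (gen σ k d)) +
            ∑ j, C (X (mm hd l j)) * (X l ^ (d - 1) * X j) := form_eq hd l (gen σ k d)
        rw [← Finset.add_sum_erase _ _ (Finset.mem_univ l)] at h1
        have h2 : X l ^ d * C (X (mm hd l l)) - (∑ j ∈ Finset.univ.erase l,
            pderiv j (form (off l (gen σ k d))) * X j - form (off l (gen σ k d))) =
            sysE l (form (gen σ k d)) l - ∑ j ∈ Finset.univ.erase l,
              X j * sysE l (form (gen σ k d)) j := by
          have h3 : ∑ j ∈ Finset.univ.erase l, X j * sysE l (form (gen σ k d)) j =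
              ∑ j ∈ Finset.univ.erase l, C (X (mm hd l j)) * (X l ^ (d - 1) * X j) +
              ∑ j ∈ Finset.univ.erase l, pderiv j (form (off l (gen σ k d))) * X j := by
            rw [← Finset.sum_add_distrib]
            refine Finset.sum_congr rfl fun j hj => ?_
            rw [← key j (Finset.ne_of_mem_erase hj)]
            ring
          rw [h3]
          rw [sysE, if_pos rfl]
          conv_rhs => rw [h1]
          have h4 : (X l : MvPolynomial σ (MvPolynomial (Mon σ d) k)) ^ d = X l ^ (d - 1) * X l := by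
            rw [← pow_succ]; congr 1; omega
          rw [h4]
          ring
        rw [h2]
        exact Ideal.sub_mem _ (Ideal.subset_span ⟨l, rfl⟩)
          (Ideal.sum_mem _ fun j _ => Ideal.mul_mem_left _ _ (Ideal.subset_span ⟨j, rfl⟩))
    · refine ⟨d - 1, - pderiv l (form (off i (gen σ k d))), ?_, ?_⟩
      · have := (indep_pderiv_off (k := k) (d := d) i l)
        intro v v' z hv
        rw [map_neg, map_neg, this v v' z hv]
      · rw [key l hl]
        exact Ideal.subset_span ⟨l, rfl⟩

theorem red_all (hd : 1 ≤ d) (i : σ) (a : MvPolynomial σ (MvPolynomial (Mon σ d) k)) :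
    Red i a := by
  induction a using MvPolynomial.induction_on with
  | C r =>
    induction r using MvPolynomial.induction_on with
    | C c =>
      apply red_of_indep
      intro v v' z _
      rw [ev_C, ev_C, eval_C, eval_C]
    | add p q hp hq => rw [C_add]; exact hp.add hq
    | mul_X p m hp => rw [C_mul]; exact hp.mul (red_C_X hd i m)
  | add p q hp hq => exact hp.add hq
  | mul_X p j hp => exact hp.mul (red_of_indep (indep_X i j))

/-- a coefficient vector of a form singular at a given point -/
theorem exists_singular (hd : 1 ≤ d) (i : σ) (v : Mon σ d → k) (z : σ → k) (hz : z i ≠ 0) :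
    ∃ v' : Mon σ d → k, (∀ m : Mon σ d, m.1 i < d - 1 → v m = v' m) ∧
      ∀ l, eval z (sysE i (form v') l) = 0 := by
  classical
  let r : σ → k := fun l => eval z (pderiv l (form (off i v)))
  let w : σ → k := fun l => if l = i then
      (∑ j ∈ Finset.univ.erase i, r j * z j - eval z (form (off i v))) / z i ^ d
    else - r l / z i ^ (d - 1)
  let v' : Mon σ d → k := fun m => off i v m + ∑ l, if m = mm hd i l then w l else 0
  have h1 : ∀ m : Mon σ d, m.1 i < d - 1 → v' m = v m := by
    intro m hm
    simp only [v']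
    rw [Finset.sum_eq_zero, add_zero, off, if_pos hm]
    intro l _
    rw [if_neg]
    intro h'
    have := mm_le hd i l
    rw [← h'] at this
    omega
  have h2 : ∀ l, v' (mm hd i l) = w l := by
    intro l
    simp only [v']
    rw [off, if_neg (not_lt.mpr (mm_le hd i l)), zero_add, Finset.sum_eq_single l]
    · rw [if_pos rfl]
    · intro l' _ hne
      rw [if_neg]
      intro h'
      exact hne (mm_inj hd i h').symm
    · intro h; exact absurd (Finset.mem_univ _) h
  have h3 : off i v' = off i v := off_congr i h1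
  refine ⟨v', fun m hm => (h1 m hm).symm, fun l => ?_⟩
  by_cases hl : l = i
  · subst hl
    rw [sysE, if_pos rfl, form_eq hd l v', h3, map_add, map_sum,
      ← Finset.add_sum_erase _ _ (Finset.mem_univ l)]
    have h4 : ∀ j, eval z (C (v' (mm hd l j)) * (X l ^ (d - 1) * X j)) =
        w j * (z l ^ (d - 1) * z j) := by
      intro j
      rw [h2 j]
      simp
    rw [h4 l]
    have h5 : ∑ j ∈ Finset.univ.erase l, eval z (C (v' (mm hd l j)) * (X l ^ (d - 1) * X j)) =
        - ∑ j ∈ Finset.univ.erase l, r j * z j := by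
      rw [← Finset.sum_neg_distrib]
      refine Finset.sum_congr rfl fun j hj => ?_
      rw [h4 j]
      simp only [w, if_neg (Finset.ne_of_mem_erase hj)]
      field_simp
    rw [h5]
    simp only [w, if_true]
    have h6 : z l ^ d = z l ^ (d - 1) * z l := by
      rw [← pow_succ]; congr 1; omega
    rw [← h6, div_mul_cancel₀ _ (pow_ne_zero _ hz)]
    ring
  · rw [sysE, if_neg hl, pderiv_form_eq hd i v' hl, h3, h2 l, map_add]
    simp only [w, if_neg hl, map_mul, eval_C, map_pow, eval_X]
    rw [div_mul_cancel₀ _ (pow_ne_zero _ hz)]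
    simp [r]

/-- such a form is degenerate -/
theorem degenerate_of_sysE [IsAlgClosed k] (i : σ) (v : Mon σ d → k) (z : σ → k)
    (hz : z i ≠ 0) (h : ∀ l, eval z (sysE i (form v) l) = 0) : ¬ Nondeg (form v) := by
  intro hn
  have h1 : ∀ l, l ≠ i → eval z (pderiv l (form v)) = 0 := by
    intro l hl
    have := h l
    rwa [sysE, if_neg hl] at this
  have h2 : eval z (form v) = 0 := by
    have := h i
    rwa [sysE, if_pos rfl] at this
  have h3 := congrArg (eval z) ((form_hom v).sum_X_mul_pderiv)
  rw [map_sum, nsmul_eq_mul, map_mul, h2, mul_zero,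
    ← Finset.add_sum_erase _ _ (Finset.mem_univ i), Finset.sum_eq_zero, add_zero, map_mul,
    eval_X] at h3
  · have h4 : eval z (pderiv i (form v)) = 0 := (mul_eq_zero.mp h3).resolve_left hz
    have h5 := hn z fun j => by
      by_cases hj : j = i
      · rw [hj]; exact h4
      · exact h1 j hj
    exact hz (congrFun h5 i)
  · intro l hl
    rw [map_mul, h1 l (Finset.ne_of_mem_erase hl), mul_zero]

/-- A polynomial vanishing on degenerate forms is an inertia form. -/
theorem inertia [IsAlgClosed k] (hd : 1 ≤ d) (i : σ) (Δ : MvPolynomial (Mon σ d) k)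
    (hΔ : ∀ v, ¬ Nondeg (form v) → eval v Δ = 0) :
    ∃ N : ℕ, X i ^ N * C Δ ∈ Ideal.span (Set.range (sysE i (form (gen σ k d)))) := by
  have : Infinite k := IsAlgClosed.instInfinite
  obtain ⟨N, a', h1, h2⟩ := red_all hd i (C Δ : MvPolynomial σ (MvPolynomial (Mon σ d) k))
  have h3 : ∀ v z, (∀ l, eval z (sysE i (form v) l) = 0) →
      ∀ p ∈ Ideal.span (Set.range (sysE i (form (gen σ k d)))), ev v z p = 0 := by
    intro v z hvz p hp
    obtain ⟨b, rfl⟩ := (Ideal.mem_span_range_iff_exists_fun).mp hp
    rw [map_sum]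
    refine Finset.sum_eq_zero fun l _ => ?_
    rw [map_mul]
    have h4 : ev v z (sysE i (form (gen σ k d)) l) = eval z (sysE i (form v) l) := by
      have h5 : (fun m => eval v (gen σ k d m)) = v := by
        funext m; simp [gen]
      by_cases hl : l = i
      · rw [sysE, sysE, if_pos hl, if_pos hl, ev_form, h5]
      · rw [sysE, sysE, if_neg hl, if_neg hl, ev_pderiv, map_form, h5]
    rw [h4, hvz l, mul_zero]
  have h6 : X i * a' = 0 := by
    apply eq_zero_of_ev
    intro v z
    rw [map_mul, ev_X]
    by_cases hz : z i = 0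
    · rw [hz, zero_mul]
    · obtain ⟨v', hv, hs⟩ := exists_singular hd i v z hz
      rw [h1 v v' z hv]
      have h7 := h3 v' z hs _ h2
      rw [map_sub, map_mul, ev_C, hΔ v' (degenerate_of_sysE i v' z hz hs), mul_zero,
        zero_sub, neg_eq_zero] at h7
      rw [h7, mul_zero]
  have h8 : a' = 0 := (mul_eq_zero.mp h6).resolve_left (X_ne_zero i)
  rw [h8, sub_zero] at h2
  exact ⟨N, h2⟩

end

end Pool.Agent.U186.AF
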