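import Pool.Agent.U186.AF.Forms

/-!
Macaulay matrices of the partial derivatives restricted to a coordinate hyperplane.
-/

set_option linter.unusedSectionVars false

namespace Pool.Agent.U186.AF

open MvPolynomial Matrix

section
variable {σ : Type*} [Fintype σ] [DecidableEq σ] {A : Type*} [CommRing A] {d : ℕ}

theorem mem_span_X (i : σ) (P : MvPolynomial σ A) (h : ∀ α : σ →₀ ℕ, α i = 0 → coeff α P = 0) :
    P ∈ Ideal.span {(X i : MvPolynomial σ A)} := by
  rw [P.as_sum]
  refine Ideal.sum_mem _ fun α hα => ?_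
  have h1 : α i ≠ 0 := fun h0 => (mem_support_iff.mp hα) (h α h0)
  rw [Ideal.mem_span_singleton]
  refine ⟨monomial (α - Finsupp.single i 1) (coeff α P), ?_⟩
  rw [X, monomial_mul, one_mul]
  have h2 : Finsupp.single i 1 + (α - Finsupp.single i 1) = α := by
    ext j
    by_cases hj : j = i
    · subst hj; simp; omega
    · simp [Ne.symm hj]
  rw [h2]

/-- Exponent vectors of degree `K` not involving the variable `i`. -/
abbrev Mon0 (i : σ) (K : ℕ) : Type _ := {α : σ →₀ ℕ // α.degree = K ∧ α i = 0}

noncomputable instance (i : σ) (K : ℕ) : Fintype (Mon0 i K) :=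
  haveI : Finite (Mon0 i K) :=
    ((Finsupp.finite_of_degree_eq K).subset (fun _ h => h.1) :
      {α : σ →₀ ℕ | α.degree = K ∧ α i = 0}.Finite).to_subtype
  Fintype.ofFinite _

theorem exists_large {i : σ} {K : ℕ} (hK : Fintype.card σ * (d - 2) < K) (α : Mon0 i K) :
    ∃ l, l ≠ i ∧ d - 1 ≤ α.1 l := by
  by_contra hcon
  push Not at hcon
  have h1 : ∀ l, α.1 l ≤ d - 2 := by
    intro l
    by_cases hl : l = i
    · rw [hl, α.2.2]; omega
    · have := hcon l hl; omega
  have h2 : α.1.degree ≤ Fintype.card σ * (d - 2) := by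
    rw [Finsupp.degree_eq_sum]
    calc ∑ l, α.1 l ≤ ∑ _l : σ, (d - 2) := Finset.sum_le_sum fun l _ => h1 l
      _ = _ := by rw [Finset.sum_const, smul_eq_mul, Finset.card_univ]
  rw [α.2.1] at h2
  omega

/-- the row index used for `α` -/
noncomputable def rowL {i : σ} {K : ℕ} (hK : Fintype.card σ * (d - 2) < K) (α : Mon0 i K) : σ :=
  (exists_large hK α).choose

theorem rowL_ne {i : σ} {K : ℕ} (hK : Fintype.card σ * (d - 2) < K) (α : Mon0 i K) :
    rowL hK α ≠ i := (exists_large hK α).choose_spec.1

theorem rowL_le {i : σ} {K : ℕ} (hK : Fintype.card σ * (d - 2) < K) (α : Mon0 i K) :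
    d - 1 ≤ α.1 (rowL hK α) := (exists_large hK α).choose_spec.2

/-- the monomial multiplier of the row `α` -/
noncomputable def rowG {i : σ} {K : ℕ} (hK : Fintype.card σ * (d - 2) < K) (α : Mon0 i K) :
    σ →₀ ℕ := α.1 - Finsupp.single (rowL hK α) (d - 1)

theorem rowG_add {i : σ} {K : ℕ} (hK : Fintype.card σ * (d - 2) < K) (α : Mon0 i K) :
    rowG hK α + Finsupp.single (rowL hK α) (d - 1) = α.1 := by
  apply tsub_add_cancel_of_le
  intro j
  by_cases hj : rowL hK α = j
  · rw [← hj, Finsupp.single_eq_same]; exact rowL_le hK α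
  · rw [Finsupp.single_apply, if_neg hj]; exact Nat.zero_le _

/-- the polynomial of the row `α` -/
noncomputable def rowP {i : σ} {K : ℕ} (hK : Fintype.card σ * (d - 2) < K) (c : Mon σ d → A)
    (α : Mon0 i K) : MvPolynomial σ A :=
  monomial (rowG hK α) 1 * pderiv (rowL hK α) (form c)

/-- the Macaulay matrix -/
noncomputable def mac (i : σ) {K : ℕ} (hK : Fintype.card σ * (d - 2) < K) (c : Mon σ d → A) :
    Matrix (Mon0 i K) (Mon0 i K) A := Matrix.of fun α α' => coeff α'.1 (rowP hK c α)

theorem rowP_hom {i : σ} {K : ℕ} (hK : Fintype.card σ * (d - 2) < K) (c : Mon σ d → A)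
    (α : Mon0 i K) : (rowP hK c α).IsHomogeneous K := by
  have h1 := (isHomogeneous_monomial (1 : A) (rfl : (rowG hK α).degree = (rowG hK α).degree)).mul
    ((form_hom c).pderiv (i := rowL hK α))
  have h2 : (rowG hK α).degree + (d - 1) = K := by
    have := congrArg Finsupp.degree (rowG_add hK α)
    rw [map_add, Finsupp.degree_single, α.2.1] at this
    exact this
  rw [h2] at h1
  exact h1

theorem rowP_congr {i : σ} {K : ℕ} (hK : Fintype.card σ * (d - 2) < K) (c : Mon σ d → A)
    (α : Mon0 i K) : rowP hK c α - ∑ α' : Mon0 i K, C (mac i hK c α α') * monomial α'.1 1 ∈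
      Ideal.span {(X i : MvPolynomial σ A)} := by
  classical
  apply mem_span_X
  intro β hβ
  rw [coeff_sub, coeff_sum, sub_eq_zero]
  by_cases hd : β.degree = K
  · rw [Finset.sum_eq_single (⟨β, hd, hβ⟩ : Mon0 i K)]
    · rw [coeff_C_mul, coeff_monomial, if_pos rfl, mul_one]
      rfl
    · intro α' _ hne
      rw [coeff_C_mul, coeff_monomial, if_neg, mul_zero]
      intro h
      exact hne (Subtype.ext h)
    · intro h; exact absurd (Finset.mem_univ _) h
  · rw [Finset.sum_eq_zero]
    · by_contra h
      exact hd (by rw [Finsupp.degree_eq_weight_one]; exact rowP_hom hK c α h)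
    · intro α' _
      rw [coeff_C_mul, coeff_monomial, if_neg, mul_zero]
      intro h
      exact hd (h ▸ α'.2.1)

/-- the system `∂_l f` for `l ≠ i` and `X_i` -/
noncomputable def sysX (i : σ) (f : MvPolynomial σ A) (l : σ) : MvPolynomial σ A :=
  if l = i then X i else pderiv l f

theorem det_mac_mem (i : σ) {K : ℕ} (hK : Fintype.card σ * (d - 2) < K) (c : Mon σ d → A)
    (α : Mon0 i K) :
    C (mac i hK c).det * monomial α.1 1 ∈ Ideal.span (Set.range (sysX i (form c))) := by
  have hX : (X i : MvPolynomial σ A) ∈ Ideal.span (Set.range (sysX i (form c))) :=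
    Ideal.subset_span ⟨i, by simp [sysX]⟩
  have hle : Ideal.span {(X i : MvPolynomial σ A)} ≤ Ideal.span (Set.range (sysX i (form c))) := by
    rw [Ideal.span_le, Set.singleton_subset_iff]; exact hX
  have h1 : ∀ β : Mon0 i K, rowP hK c β ∈ Ideal.span (Set.range (sysX i (form c))) := by
    intro β
    unfold rowP
    apply Ideal.mul_mem_left
    exact Ideal.subset_span ⟨rowL hK β, by simp [sysX, rowL_ne]⟩
  have h2 : ∑ β : Mon0 i K, C ((mac i hK c).adjugate α β) *
      (rowP hK c β - (rowP hK c β - ∑ α' : Mon0 i K, C (mac i hK c β α') * monomial α'.1 1)) ∈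
      Ideal.span (Set.range (sysX i (form c))) :=
    Ideal.sum_mem _ fun β _ => Ideal.mul_mem_left _ _
      (Ideal.sub_mem _ (h1 β) (hle (rowP_congr hK c β)))
  have h3 : ∑ β : Mon0 i K, C ((mac i hK c).adjugate α β) *
      (rowP hK c β - (rowP hK c β - ∑ α' : Mon0 i K, C (mac i hK c β α') * monomial α'.1 1)) =
      C (mac i hK c).det * monomial α.1 1 := by
    calc _ = ∑ β : Mon0 i K, ∑ α' : Mon0 i K,
          C ((mac i hK c).adjugate α β * mac i hK c β α') * monomial α'.1 1 := by
          refine Finset.sum_congr rfl fun β _ => ?_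
          rw [sub_sub_cancel, Finset.mul_sum]
          refine Finset.sum_congr rfl fun α' _ => ?_
          rw [C_mul, mul_assoc]
      _ = ∑ α' : Mon0 i K, C (((mac i hK c).adjugate * mac i hK c) α α') * monomial α'.1 1 := by
          rw [Finset.sum_comm]
          refine Finset.sum_congr rfl fun α' _ => ?_
          rw [Matrix.mul_apply, map_sum, Finset.sum_mul]
      _ = _ := by
          rw [Matrix.adjugate_mul, Finset.sum_eq_single α]
          · simp
          · intro β _ hβ
            rw [Matrix.smul_apply, Matrix.one_apply_ne hβ.symm, smul_zero, map_zero, zero_mul]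
          · intro h; exact absurd (Finset.mem_univ _) h
  rwa [h3] at h2

end

section
variable {σ : Type*} [Fintype σ] [DecidableEq σ] {k : Type*} [Field k] {d : ℕ}

/-- coefficients of the Fermat form -/
noncomputable def fermat (σ : Type*) [Fintype σ] (k : Type*) [Field k] (d : ℕ) : Mon σ d → k :=
  fun m => coeff m.1 (∑ j, X j ^ d : MvPolynomial σ k)

theorem form_fermat : form (fermat σ k d) = ∑ j, (X j ^ d : MvPolynomial σ k) :=
  (eq_form (IsHomogeneous.sum _ _ _ fun j _ => isHomogeneous_X_pow j d)).symm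

theorem pderiv_fermat (l : σ) :
    pderiv l (form (fermat σ k d)) = C (d : k) * X l ^ (d - 1) := by
  rw [form_fermat, map_sum, Finset.sum_eq_single l]
  · rw [Derivation.leibniz_pow, pderiv_X_self]
    simp
  · intro j _ hj
    rw [Derivation.leibniz_pow, pderiv_X_of_ne hj]
    simp
  · intro h; exact absurd (Finset.mem_univ _) h

theorem mac_fermat (i : σ) {K : ℕ} (hK : Fintype.card σ * (d - 2) < K) :
    mac i hK (fermat σ k d) = (d : k) • (1 : Matrix (Mon0 i K) (Mon0 i K) k) := by
  classical
  ext1 α α'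
  unfold mac
  rw [Matrix.of_apply, rowP, pderiv_fermat, mul_left_comm, coeff_C_mul, X_pow_eq_monomial,
    monomial_mul, one_mul, rowG_add, coeff_monomial, Matrix.smul_apply, smul_eq_mul]
  congr 1
  by_cases h : α = α'
  · rw [h, if_pos rfl, Matrix.one_apply_eq]
  · rw [if_neg (fun h' => h (Subtype.ext h')), Matrix.one_apply_ne h]

/-- generic coefficient vector -/
noncomputable def gen (σ : Type*) (k : Type*) [Field k] (d : ℕ) :
    Mon σ d → MvPolynomial (Mon σ d) k := fun m => X m

theorem mac_map {A B : Type*} [CommRing A] [CommRing B] (φ : A →+* B) (i : σ) {K : ℕ}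
    (hK : Fintype.card σ * (d - 2) < K) (c : Mon σ d → A) :
    φ (mac i hK c).det = (mac i hK fun m => φ (c m)).det := by
  rw [RingHom.map_det]
  congr 1
  ext1 α α'
  simp only [RingHom.mapMatrix_apply, Matrix.map_apply, mac, Matrix.of_apply, rowP]
  rw [← coeff_map, map_mul, map_pderiv, map_form, map_monomial, map_one]

theorem mac_supported (i : σ) {K : ℕ} (hK : Fintype.card σ * (d - 2) < K) :
    (mac i hK (gen σ k d)).det ∈ supported k {m : Mon σ d | m.1 i = 0} := by
  have hent : ∀ α α' : Mon0 i K, mac i hK (gen σ k d) α α' ∈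
      supported k {m : Mon σ d | m.1 i = 0} := by
    intro α α'
    unfold mac rowP
    rw [Matrix.of_apply, coeff_monomial_mul']
    split_ifs with hle
    · rw [one_mul, coeff_pderiv]
      refine Subalgebra.mul_mem _ ?_ (natCast_mem _ _)
      by_cases hd : (α'.1 - rowG hK α + Finsupp.single (rowL hK α) 1).degree = d
      · rw [coeff_form (gen σ k d) ⟨_, hd⟩]
        unfold gen
        rw [X_mem_supported]
        have h1 := α'.2.2
        have h2 := rowL_ne hK α
        simp [Finsupp.single_apply, h2, h1]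
      · rw [coeff_form_of_ne _ _ hd]
        exact Subalgebra.zero_mem _
    · exact Subalgebra.zero_mem _
  rw [Matrix.det_apply]
  refine Subalgebra.sum_mem _ fun τ _ => ?_
  rw [Units.smul_def]
  exact Subalgebra.zsmul_mem _ (Subalgebra.prod_mem _ fun α _ => hent _ _) _

theorem macaulay [CharZero k] (hd : 2 ≤ d) (i : σ) {K : ℕ}
    (hK : Fintype.card σ * (d - 2) < K) :
    ∃ β : MvPolynomial (Mon σ d) k, β ≠ 0 ∧ β ∈ supported k {m : Mon σ d | m.1 i = 0} ∧
      ∀ j, C β * X j ^ K ∈ Ideal.span (Set.range (sysX i (form (gen σ k d)))) := by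
  refine ⟨(mac i hK (gen σ k d)).det, ?_, mac_supported i hK, fun j => ?_⟩
  · intro h
    have h1 := mac_map (eval (fermat σ k d)) i hK (gen σ k d)
    rw [h, map_zero] at h1
    have h2 : (fun m => eval (fermat σ k d) (gen σ k d m)) = fermat σ k d := by
      funext m
      simp [gen]
    rw [h2, mac_fermat, Matrix.det_smul, Matrix.det_one, mul_one] at h1
    have h3 : (d : k) ≠ 0 := Nat.cast_ne_zero.mpr (by omega)
    exact pow_ne_zero _ h3 h1.symm
  · by_cases hj : j = i
    · subst hj
      have h5 : (X j ^ K : MvPolynomial σ (MvPolynomial (Mon σ d) k)) = X j ^ (K - 1) * X j := by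
        rw [← pow_succ]; congr 1; omega
      rw [h5]
      exact Ideal.mul_mem_left _ _ (Ideal.mul_mem_left _ _ (Ideal.subset_span ⟨j, by simp [sysX]⟩))
    · have h1 : ((Finsupp.single j K : σ →₀ ℕ).degree = K) ∧ (Finsupp.single j K : σ →₀ ℕ) i = 0 :=
        ⟨Finsupp.degree_single _ _, by rw [Finsupp.single_apply, if_neg hj]⟩
      have h2 := det_mac_mem i hK (gen σ k d) ⟨Finsupp.single j K, h1⟩
      rwa [← X_pow_eq_monomial] at h2

end

end Pool.Agent.U186.AF
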